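import Mathlib

section

set_option autoImplicit false

open Set Metric Filter Topology

namespace SCV

variable {E F : Type*} [NormedAddCommGroup E] [NormedSpace ℂ E]
  [NormedAddCommGroup F] [NormedSpace ℂ F]

/-- Cauchy estimate for the Fréchet derivative. -/
theorem norm_fderiv_le {f : E → F} {c : E} {R C : ℝ} (hR : 0 < R)
    (hd : DifferentiableOn ℂ f (ball c R)) (hC : ∀ z ∈ ball c R, ‖f z‖ ≤ C) :
    ‖fderiv ℂ f c‖ ≤ 2 * C / R := by
  refine Complex.norm_fderiv_le_div_of_mapsTo_ball hd (fun z hz => ?_) hR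
  rw [mem_closedBall, dist_eq_norm]
  calc ‖f z - f c‖ ≤ ‖f z‖ + ‖f c‖ := norm_sub_le _ _
    _ ≤ C + C := add_le_add (hC z hz) (hC c (mem_ball_self hR))
    _ = 2 * C := by ring

/-- Second order Taylor estimate. -/
theorem norm_taylor_le {f : E → F} {c z : E} {R C : ℝ} (hR : 0 < R)
    (hd : DifferentiableOn ℂ f (ball c R)) (hC : ∀ z ∈ ball c R, ‖f z‖ ≤ C)
    (hz : z ∈ ball c R) :
    ‖f z - f c - fderiv ℂ f c (z - c)‖ ≤ 4 * C * (‖z - c‖ / R) ^ 2 := by
  have hC0 : 0 ≤ C := (norm_nonneg _).trans (hC c (mem_ball_self hR))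
  set g : E → F := fun w => f w - f c - fderiv ℂ f c (w - c) with hg
  have hgd : DifferentiableOn ℂ g (ball c R) := by
    refine (hd.sub_const _).sub ?_
    exact ((fderiv ℂ f c).differentiable.comp (differentiable_id.sub_const c)).differentiableOn
  have hgc : g c = 0 := by simp [hg]
  have hmaps : MapsTo g (ball c R) (closedBall (g c) (4 * C)) := by
    intro w hw
    rw [hgc, mem_closedBall, dist_zero_right]
    have h1 : ‖fderiv ℂ f c (w - c)‖ ≤ 2 * C := by
      calc ‖fderiv ℂ f c (w - c)‖ ≤ ‖fderiv ℂ f c‖ * ‖w - c‖ := (fderiv ℂ f c).le_opNorm _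
        _ ≤ (2 * C / R) * R := by
            refine mul_le_mul (norm_fderiv_le hR hd hC) ?_ (norm_nonneg _) (by positivity)
            rw [mem_ball, dist_eq_norm] at hw; exact hw.le
        _ = 2 * C := by field_simp
    calc ‖g w‖ ≤ ‖f w - f c‖ + ‖fderiv ℂ f c (w - c)‖ := norm_sub_le _ _
      _ ≤ (‖f w‖ + ‖f c‖) + 2 * C := add_le_add (norm_sub_le _ _) h1
      _ ≤ (C + C) + 2 * C := by
          have := hC w hw; have := hC c (mem_ball_self hR); linarith
      _ = 4 * C := by ring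
  have hlo : (g · - g c) =o[𝓝 c] (fun w ↦ ‖w - c‖ ^ 1) := by
    have h1 : HasFDerivAt f (fderiv ℂ f c) c :=
      (hd.differentiableAt (isOpen_ball.mem_nhds (mem_ball_self hR))).hasFDerivAt
    have h2 := h1.isLittleO
    simp only [hgc, sub_zero, pow_one]
    exact h2.norm_right
  have := Complex.dist_le_mul_div_pow_of_mapsTo_ball_of_isLittleO (n := 1) hgd hmaps hlo hz
  rw [hgc, dist_zero_right, dist_eq_norm] at this
  exact this

/-- Locally uniform limits of holomorphic maps are holomorphic and derivatives converge. -/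
theorem tendstoLocallyUniformlyOn_fderiv [CompleteSpace F] [ProperSpace E] {U : Set E}
    (hU : IsOpen U) {f : ℕ → E → F} {g : E → F} (hf : ∀ n, DifferentiableOn ℂ (f n) U)
    (h : TendstoLocallyUniformlyOn f g atTop U) :
    DifferentiableOn ℂ g U ∧
      TendstoLocallyUniformlyOn (fun n => fderiv ℂ (f n)) (fderiv ℂ g) atTop U := by
  -- uniform Cauchy property of the derivatives near each point
  have key : ∀ x ∈ U, ∃ ρ > 0, ball x ρ ⊆ U ∧
      UniformCauchySeqOn (fun n => fderiv ℂ (f n)) atTop (ball x ρ) := by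
    intro x hx
    obtain ⟨ρ, hρ, hρU⟩ : ∃ ρ > 0, closedBall x (2 * ρ) ⊆ U := by
      obtain ⟨ε, hε, hεU⟩ := Metric.isOpen_iff.mp hU x hx
      refine ⟨ε / 4, by positivity, (closedBall_subset_ball (by linarith)).trans hεU⟩
    have hunif : TendstoUniformlyOn f g atTop (closedBall x (2 * ρ)) :=
      (tendstoLocallyUniformlyOn_iff_forall_isCompact hU).mp h _ hρU
        (isCompact_closedBall x (2 * ρ))
    refine ⟨ρ, hρ, ((ball_subset_ball (by linarith)).trans ball_subset_closedBall).trans hρU, ?_⟩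
    rw [Metric.uniformCauchySeqOn_iff]
    intro ε hε
    have hc := hunif.uniformCauchySeqOn
    rw [Metric.uniformCauchySeqOn_iff] at hc
    obtain ⟨N, hN⟩ := hc (ε * ρ / 4) (by positivity)
    refine ⟨N, fun m hm n hn z hz => ?_⟩
    have hsub : ball z ρ ⊆ closedBall x (2 * ρ) := by
      intro w hw
      rw [mem_ball] at hw hz
      rw [mem_closedBall]
      calc dist w x ≤ dist w z + dist z x := dist_triangle _ _ _
        _ ≤ 2 * ρ := by linarith
    have hdm : DifferentiableAt ℂ (f m) z :=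
      (hf m).differentiableAt (hU.mem_nhds (hρU (hsub (mem_ball_self hρ))))
    have hdn : DifferentiableAt ℂ (f n) z :=
      (hf n).differentiableAt (hU.mem_nhds (hρU (hsub (mem_ball_self hρ))))
    have hdiff : DifferentiableOn ℂ (fun w => f m w - f n w) (ball z ρ) :=
      ((hf m).mono (hsub.trans hρU)).sub ((hf n).mono (hsub.trans hρU))
    have hb : ∀ w ∈ ball z ρ, ‖f m w - f n w‖ ≤ ε * ρ / 4 := by
      intro w hw
      rw [← dist_eq_norm]
      exact (hN m hm n hn w (hsub hw)).le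
    have h1 := norm_fderiv_le hρ hdiff hb
    have h2 : fderiv ℂ (fun w => f m w - f n w) z = fderiv ℂ (f m) z - fderiv ℂ (f n) z :=
      fderiv_fun_sub hdm hdn
    rw [h2] at h1
    rw [dist_eq_norm]
    calc ‖fderiv ℂ (f m) z - fderiv ℂ (f n) z‖ ≤ 2 * (ε * ρ / 4) / ρ := h1
      _ = ε / 2 := by field_simp; ring
      _ < ε := by linarith
  -- the pointwise limit of the derivatives
  have hlim : ∀ x ∈ U, ∃ L : E →L[ℂ] F, Tendsto (fun n => fderiv ℂ (f n) x) atTop (𝓝 L) := by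
    intro x hx
    obtain ⟨ρ, hρ, -, hc⟩ := key x hx
    exact cauchySeq_tendsto_of_complete (hc.cauchySeq (mem_ball_self hρ))
  choose! g' hg' using hlim
  have hloc : TendstoLocallyUniformlyOn (fun n => fderiv ℂ (f n)) g' atTop U := by
    intro u hu x hx
    obtain ⟨ρ, hρ, hρU, hc⟩ := key x hx
    have := hc.tendstoUniformlyOn_of_tendsto (fun z hz => hg' z (hρU hz))
    exact ⟨ball x ρ, mem_nhdsWithin_of_mem_nhds (ball_mem_nhds x hρ), this u hu⟩
  have hder : ∀ x ∈ U, HasFDerivAt g (g' x) x := by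
    intro x hx
    exact hasFDerivAt_of_tendstoLocallyUniformlyOn (f := f) hU hloc
      (fun n z hz => ((hf n).differentiableAt (hU.mem_nhds hz)).hasFDerivAt)
      (fun z hz => h.tendsto_at hz) hx
  refine ⟨fun x hx => (hder x hx).differentiableAt.differentiableWithinAt, ?_⟩
  exact hloc.congr_right (fun x hx => (hder x hx).fderiv.symm)

/-- For a holomorphic map, every directional derivative is holomorphic. -/
theorem differentiableOn_fderiv_apply [CompleteSpace F] [ProperSpace E] {U : Set E}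
    (hU : IsOpen U) {f : E → F} (hf : DifferentiableOn ℂ f U) (v : E) :
    DifferentiableOn ℂ (fun z => fderiv ℂ f z v) U := by
  intro x hx
  -- work on a small ball
  obtain ⟨ρ, hρ, hρU⟩ : ∃ ρ > 0, closedBall x (4 * ρ) ⊆ U := by
    obtain ⟨ε, hε, hεU⟩ := Metric.isOpen_iff.mp hU x hx
    refine ⟨ε / 8, by positivity, (closedBall_subset_ball (by linarith)).trans hεU⟩
  obtain ⟨C, hC⟩ : ∃ C, ∀ z ∈ closedBall x (4 * ρ), ‖f z‖ ≤ C :=
    (isCompact_closedBall x (4 * ρ)).exists_bound_of_continuousOn (hf.continuousOn.mono hρU)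
  have hC0 : 0 ≤ C := (norm_nonneg _).trans (hC x (mem_closedBall_self (by positivity)))
  -- difference quotients
  set t : ℕ → ℂ := fun n => ((ρ / ((‖v‖ + 1) * (n + 1)) : ℝ) : ℂ) with ht
  have htpos : ∀ n : ℕ, 0 < ρ / ((‖v‖ + 1) * (n + 1)) := fun n => by positivity
  have htne : ∀ n, t n ≠ 0 := fun n => by
    simp only [ht]; exact Complex.ofReal_ne_zero.mpr (htpos n).ne'
  have htn : ∀ n, ‖t n‖ = ρ / ((‖v‖ + 1) * (n + 1)) := fun n => by
    rw [ht]; simp only [Complex.norm_real]; exact abs_of_pos (htpos n)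
  have htv : ∀ n, ‖t n • v‖ ≤ ρ / (n + 1) := by
    intro n
    rw [norm_smul, htn]
    have h1 : ‖v‖ / (‖v‖ + 1) ≤ 1 := by
      rw [div_le_one (by positivity)]; linarith
    calc ρ / ((‖v‖ + 1) * (n + 1)) * ‖v‖ = (ρ / (n + 1)) * (‖v‖ / (‖v‖ + 1)) := by
          field_simp
      _ ≤ (ρ / (n + 1)) * 1 := by gcongr
      _ = ρ / (n + 1) := mul_one _
  have htv' : ∀ n, ‖t n • v‖ ≤ ρ := fun n => (htv n).trans (by
    rw [div_le_iff₀ (by positivity)]
    have : (0 : ℝ) ≤ n := Nat.cast_nonneg n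
    nlinarith)
  set q : ℕ → E → F := fun n z => (t n)⁻¹ • (f (z + t n • v) - f z) with hq
  have hqd : ∀ n, DifferentiableOn ℂ (q n) (ball x (2 * ρ)) := by
    intro n
    refine DifferentiableOn.const_smul ?_ _
    refine DifferentiableOn.sub ?_ (hf.mono ?_)
    · refine hf.comp ((differentiable_id.add_const _).differentiableOn) ?_
      intro z hz
      apply hρU
      rw [mem_ball, dist_eq_norm] at hz
      rw [mem_closedBall, dist_eq_norm]
      calc ‖id z + t n • v - x‖ = ‖(z - x) + t n • v‖ := by simp only [id]; congr 1; abel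
        _ ≤ ‖z - x‖ + ‖t n • v‖ := norm_add_le _ _
        _ ≤ 4 * ρ := by linarith [htv' n]
    · exact ((ball_subset_ball (by linarith)).trans ball_subset_closedBall).trans hρU
  have hconv : TendstoLocallyUniformlyOn q (fun z => fderiv ℂ f z v) atTop (ball x (2 * ρ)) := by
    apply TendstoUniformlyOn.tendstoLocallyUniformlyOn
    rw [Metric.tendstoUniformlyOn_iff]
    intro ε hε
    have hlim : Tendsto (fun n : ℕ => (4 * C * (‖v‖ + 1) / ρ) * (1 / ((n : ℝ) + 1))) atTop (𝓝 0) := by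
      have := (tendsto_one_div_add_atTop_nhds_zero_nat (𝕜 := ℝ)).const_mul
        (4 * C * (‖v‖ + 1) / ρ)
      simpa using this
    filter_upwards [hlim.eventually (gt_mem_nhds hε)] with n hn z hz
    have hsub : ball z (2 * ρ) ⊆ closedBall x (4 * ρ) := by
      intro w hw
      rw [mem_ball] at hw hz
      rw [mem_closedBall]
      calc dist w x ≤ dist w z + dist z x := dist_triangle _ _ _
        _ ≤ 4 * ρ := by linarith
    have hmem : z + t n • v ∈ ball z (2 * ρ) := by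
      rw [mem_ball, dist_eq_norm]
      have : z + t n • v - z = t n • v := by abel
      rw [this]; linarith [htv' n]
    have h1 := norm_taylor_le (by positivity) (hf.mono (hsub.trans hρU))
      (fun w hw => hC w (hsub hw)) hmem
    have h2 : z + t n • v - z = t n • v := by abel
    rw [h2] at h1
    rw [dist_comm, dist_eq_norm]
    have h3 : q n z - fderiv ℂ f z v
        = (t n)⁻¹ • (f (z + t n • v) - f z - fderiv ℂ f z (t n • v)) := by
      rw [hq, smul_sub (t n)⁻¹ (f (z + t n • v) - f z), map_smul, smul_smul,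
        inv_mul_cancel₀ (htne n), one_smul]
    rw [h3, norm_smul, norm_inv]
    have h4 : ‖t n • v‖ / (2 * ρ) ≤ (‖t n‖ * (‖v‖ + 1)) / (2 * ρ) := by
      rw [norm_smul]; gcongr; linarith
    have htn0 : 0 < ‖t n‖ := norm_pos_iff.mpr (htne n)
    calc ‖t n‖⁻¹ * ‖f (z + t n • v) - f z - fderiv ℂ f z (t n • v)‖
        ≤ ‖t n‖⁻¹ * (4 * C * (‖t n • v‖ / (2 * ρ)) ^ 2) := by gcongr
      _ ≤ ‖t n‖⁻¹ * (4 * C * ((‖t n‖ * (‖v‖ + 1)) / (2 * ρ)) ^ 2) := by gcongr
      _ = C * (‖v‖ + 1) ^ 2 * ‖t n‖ / ρ ^ 2 := by field_simp; ring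
      _ = (C * (‖v‖ + 1) / ρ) * (1 / ((n : ℝ) + 1)) := by
          rw [htn]; field_simp
      _ ≤ (4 * C * (‖v‖ + 1) / ρ) * (1 / ((n : ℝ) + 1)) := by
          gcongr
          have : 0 ≤ C * (‖v‖ + 1) := by positivity
          nlinarith
      _ < ε := hn
  have := (tendstoLocallyUniformlyOn_fderiv isOpen_ball hqd hconv).1
  exact (this.differentiableAt (isOpen_ball.mem_nhds (mem_ball_self (by positivity)))).differentiableWithinAt

/-- Holomorphic maps on open subsets of finite-dimensional spaces are smooth. -/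
theorem contDiffOn_of_differentiableOn [CompleteSpace F] [FiniteDimensional ℂ E] {U : Set E}
    (hU : IsOpen U) {f : E → F} (hf : DifferentiableOn ℂ f U) {n : ℕ∞} : ContDiffOn ℂ n f U := by
  have : ProperSpace E := FiniteDimensional.proper ℂ E
  have main : ∀ (m : ℕ) (f : E → F), DifferentiableOn ℂ f U → ContDiffOn ℂ m f U := by
    intro m
    induction m with
    | zero => intro f hf; exact contDiffOn_zero.mpr hf.continuousOn
    | succ m ih =>
      intro f hf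
      rw [show ((m + 1 : ℕ) : WithTop ℕ∞) = (m : WithTop ℕ∞) + 1 by push_cast; rfl,
        contDiffOn_succ_iff_fderiv_of_isOpen hU]
      refine ⟨hf, by simp, ?_⟩
      rw [contDiffOn_clm_apply]
      intro v
      exact ih _ (differentiableOn_fderiv_apply hU hf v)
  rcases n with _ | n
  · exact contDiffOn_infty.mpr (fun m => main m f hf)
  · exact main n f hf

theorem contDiffAt_of_differentiableOn [CompleteSpace F] [FiniteDimensional ℂ E] {U : Set E}
    (hU : IsOpen U) {f : E → F} (hf : DifferentiableOn ℂ f U) {z : E} (hz : z ∈ U) {n : ℕ∞} :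
    ContDiffAt ℂ n f z :=
  (contDiffOn_of_differentiableOn hU hf).contDiffAt (hU.mem_nhds hz)

end SCV

end

section

/-!
# Zeros of a holomorphic function of one variable in a disc

`factor`: the zeros in the disc split off; `residue`: the weighted argument principle; `lower`: the
lower bound by the product of the distances from the zeros.
-/

open Metric Set Filter Topology
open scoped Real

namespace Pool.Agent.KRFLj

/-- The zeros in the closed disc are finitely many, and at none of them the function vanishes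
identically. -/
theorem zeros_finite {φ : ℂ → ℂ} {ρ ρ' : ℝ} (hρ : 0 < ρ) (hlt : ρ < ρ')
    (hφ : DifferentiableOn ℂ φ (ball 0 ρ')) (hne : ∀ t, ‖t‖ = ρ → φ t ≠ 0) :
    {t : ℂ | ‖t‖ ≤ ρ ∧ φ t = 0}.Finite ∧ ∀ z ∈ ball (0 : ℂ) ρ', ¬ ∀ᶠ t in 𝓝 z, φ t = 0 := by
  have hana : AnalyticOnNhd ℂ φ (ball 0 ρ') := hφ.analyticOnNhd isOpen_ball
  have hpre : IsPreconnected (ball (0 : ℂ) ρ') := (convex_ball _ _).isPreconnected
  have hρm : ((ρ : ℝ) : ℂ) ∈ ball (0 : ℂ) ρ' := by
    rw [mem_ball_zero_iff, Complex.norm_real, Real.norm_of_nonneg hρ.le]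
    exact hlt
  have hρn : φ (ρ : ℂ) ≠ 0 :=
    hne _ (by rw [Complex.norm_real, Real.norm_of_nonneg hρ.le])
  constructor
  · by_contra hinf
    have hsub : {t : ℂ | ‖t‖ ≤ ρ ∧ φ t = 0} ⊆ closedBall (0 : ℂ) ρ := fun t ht => by
      rw [mem_closedBall_zero_iff]
      exact ht.1
    obtain ⟨z, hz, hacc⟩ := Set.Infinite.exists_accPt_of_subset_isCompact hinf
      (isCompact_closedBall (0 : ℂ) ρ) hsub
    have hzb : z ∈ ball (0 : ℂ) ρ' := by
      rw [mem_ball_zero_iff]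
      rw [mem_closedBall_zero_iff] at hz
      exact hz.trans_lt hlt
    have hfreq : ∃ᶠ t in 𝓝[≠] z, φ t = 0 := by
      rw [accPt_iff_frequently_nhdsNE] at hacc
      exact hacc.mono fun t ht => ht.2
    exact hρn (hana.eqOn_zero_of_preconnected_of_frequently_eq_zero hpre hzb hfreq hρm)
  · intro z hz hev
    exact hρn (hana.eqOn_zero_of_preconnected_of_eventuallyEq_zero hpre hz hev hρm)

/-- One zero splits off with its multiplicity. -/
theorem split_one {φ : ℂ → ℂ} {ρ' : ℝ} (hφ : DifferentiableOn ℂ φ (ball 0 ρ')) {z : ℂ}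
    (hz : z ∈ ball (0 : ℂ) ρ') (hnz : ¬ ∀ᶠ t in 𝓝 z, φ t = 0) :
    ∃ (n : ℕ) (g : ℂ → ℂ), DifferentiableOn ℂ g (ball 0 ρ') ∧ g z ≠ 0 ∧
      ∀ t ∈ ball (0 : ℂ) ρ', φ t = (t - z) ^ n * g t := by
  have hana : AnalyticAt ℂ φ z := hφ.analyticAt (isOpen_ball.mem_nhds hz)
  obtain ⟨n, g, hg, hgz, he⟩ := (hana.exists_eventuallyEq_pow_smul_nonzero_iff).2 hnz
  simp only [smul_eq_mul] at he
  classical
  set G : ℂ → ℂ := fun t => if t = z then g z else φ t / (t - z) ^ n with hG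
  have hGz : G z = g z := by simp [hG]
  have hGe : G =ᶠ[𝓝 z] g := by
    filter_upwards [he] with t ht
    by_cases h : t = z
    · subst h
      exact hGz
    · have h' : (t - z) ^ n ≠ 0 := pow_ne_zero _ (sub_ne_zero.2 h)
      simp only [hG, if_neg h, ht]
      field_simp
  refine ⟨n, G, ?_, by rw [hGz]; exact hgz, ?_⟩
  · intro t ht
    by_cases h : t = z
    · subst h
      exact (hGe.differentiableAt_iff.2 hg.differentiableAt).differentiableWithinAt
    · have hGt : G =ᶠ[𝓝 t] fun s => φ s / (s - z) ^ n := by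
        filter_upwards [isOpen_ne.mem_nhds h] with s hs
        simp only [hG, if_neg hs]
      refine (hGt.differentiableAt_iff.2 ?_).differentiableWithinAt
      exact (hφ.differentiableAt (isOpen_ball.mem_nhds ht)).div
        ((differentiableAt_id.sub_const z).pow n) (pow_ne_zero _ (sub_ne_zero.2 h))
  · intro t ht
    by_cases h : t = z
    · subst h
      rw [hGz]
      exact he.self_of_nhds
    · have h' : (t - z) ^ n ≠ 0 := pow_ne_zero _ (sub_ne_zero.2 h)
      simp only [hG, if_neg h]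
      field_simp

theorem factor_aux {ρ ρ' : ℝ} (hlt : ρ < ρ') (s : Finset ℂ) : ∀ φ : ℂ → ℂ,
    DifferentiableOn ℂ φ (ball 0 ρ') → (∀ z ∈ ball (0 : ℂ) ρ', ¬ ∀ᶠ t in 𝓝 z, φ t = 0) →
    (∀ t, ‖t‖ = ρ → φ t ≠ 0) → (∀ t : ℂ, ‖t‖ ≤ ρ → (φ t = 0 ↔ t ∈ s)) → (∀ t ∈ s, ‖t‖ ≤ ρ) →
    ∃ (l : List ℂ) (u : ℂ → ℂ), (∀ b ∈ l, ‖b‖ < ρ) ∧ DifferentiableOn ℂ u (ball 0 ρ') ∧
      (∀ t, ‖t‖ ≤ ρ → u t ≠ 0) ∧
      ∀ t ∈ ball (0 : ℂ) ρ', φ t = (l.map fun b => t - b).prod * u t := by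
  classical
  induction s using Finset.induction_on with
  | empty =>
    intro φ hφ _ _ hs _
    exact ⟨[], φ, by simp, hφ, fun t ht h => by simpa using (hs t ht).1 h, fun t _ => by simp⟩
  | insert z s hzs ih =>
    intro φ hφ hnz hne hs hsρ
    have hzρ : ‖z‖ ≤ ρ := hsρ z (Finset.mem_insert_self z s)
    have hz : z ∈ ball (0 : ℂ) ρ' := by
      rw [mem_ball_zero_iff]
      exact hzρ.trans_lt hlt
    have hφz : φ z = 0 := (hs z hzρ).2 (Finset.mem_insert_self z s)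
    have hzρ' : ‖z‖ < ρ := lt_of_le_of_ne hzρ fun h => hne z h hφz
    obtain ⟨n, g, hg, hgz, he⟩ := split_one hφ hz (hnz z hz)
    have hgne : ∀ t, ‖t‖ = ρ → g t ≠ 0 := fun t ht h => hne t ht (by
      rw [he t (by rw [mem_ball_zero_iff, ht]; exact hlt), h, mul_zero])
    have hn : n ≠ 0 := by
      rintro rfl
      have := he z hz
      rw [pow_zero, one_mul, hφz] at this
      exact hgz this.symm
    have hg0 : ∀ w ∈ ball (0 : ℂ) ρ', ¬ ∀ᶠ t in 𝓝 w, g t = 0 := by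
      intro w hw hev
      refine hnz w hw ?_
      filter_upwards [hev, isOpen_ball.mem_nhds hw] with t ht htb
      rw [he t htb, ht, mul_zero]
    have hgs : ∀ t : ℂ, ‖t‖ ≤ ρ → (g t = 0 ↔ t ∈ s) := by
      intro t ht
      have htb : t ∈ ball (0 : ℂ) ρ' := by
        rw [mem_ball_zero_iff]
        exact ht.trans_lt hlt
      by_cases h : t = z
      · subst h
        exact ⟨fun h => absurd h hgz, fun h => absurd h hzs⟩
      · have h1 := hs t ht
        rw [he t htb, mul_eq_zero, or_iff_right (pow_ne_zero _ (sub_ne_zero.2 h)),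
          Finset.mem_insert, or_iff_right h] at h1
        exact h1
    obtain ⟨l, u, hl, hu, hu0, hlu⟩ := ih g hg hg0 hgne hgs
      fun t ht => hsρ t (Finset.mem_insert_of_mem ht)
    refine ⟨List.replicate n z ++ l, u, ?_, hu, hu0, ?_⟩
    · intro b hb
      rcases List.mem_append.1 hb with hb | hb
      · rw [(List.mem_replicate.1 hb).2]
        exact hzρ'
      · exact hl b hb
    · intro t ht
      rw [he t ht, hlu t ht, List.map_append, List.prod_append, List.map_replicate,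
        List.prod_replicate, mul_assoc]

/-- The zeros in the disc split off. -/
theorem factor {φ : ℂ → ℂ} {ρ ρ' : ℝ} (hρ : 0 < ρ) (hlt : ρ < ρ')
    (hφ : DifferentiableOn ℂ φ (ball 0 ρ')) (hne : ∀ t, ‖t‖ = ρ → φ t ≠ 0) :
    ∃ (d : ℕ) (b : Fin d → ℂ) (u : ℂ → ℂ), (∀ j, ‖b j‖ < ρ) ∧
      DifferentiableOn ℂ u (ball 0 ρ') ∧ (∀ t, ‖t‖ ≤ ρ → u t ≠ 0) ∧
      ∀ t ∈ ball (0 : ℂ) ρ', φ t = (∏ j, (t - b j)) * u t := by
  obtain ⟨hfin, hnz⟩ := zeros_finite hρ hlt hφ hne
  obtain ⟨l, u, hl, hu, hu0, hlu⟩ := factor_aux hlt hfin.toFinset φ hφ hnz hne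
    (fun t ht => by
      rw [Set.Finite.mem_toFinset]
      exact ⟨fun h => ⟨ht, h⟩, fun h => h.2⟩)
    (fun t ht => by
      rw [Set.Finite.mem_toFinset] at ht
      exact ht.1)
  refine ⟨l.length, fun j => l.get j, u, fun j => hl _ (List.get_mem l j), hu, hu0, ?_⟩
  intro t ht
  rw [hlu t ht]
  congr 1
  rw [← List.prod_ofFn]
  congr 1
  apply List.ext_get
  · simp
  · intro n h₁ h₂
    simp

section

variable {φ : ℂ → ℂ} {ρ ρ' : ℝ} {d : ℕ} {b : Fin d → ℂ} {u : ℂ → ℂ}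

/-- The weighted argument principle. -/
theorem residue (hρ : 0 < ρ) (hlt : ρ < ρ') (hb : ∀ j, ‖b j‖ < ρ)
    (hu : DifferentiableOn ℂ u (ball 0 ρ')) (hu0 : ∀ t, ‖t‖ ≤ ρ → u t ≠ 0)
    (he : ∀ t ∈ ball (0 : ℂ) ρ', φ t = (∏ j, (t - b j)) * u t) {N : ℂ → ℂ}
    (hN : DifferentiableOn ℂ N (ball 0 ρ')) :
    (∮ t in C(0, ρ), N t * (deriv φ t / φ t)) = 2 * π * Complex.I * ∑ j, N (b j) := by
  have hcb : closedBall (0 : ℂ) ρ ⊆ ball 0 ρ' := closedBall_subset_ball hlt
  have hdu : DifferentiableOn ℂ (deriv u) (ball 0 ρ') := hu.deriv isOpen_ball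
  have hq : DifferentiableOn ℂ (fun t => N t * (deriv u t / u t)) (closedBall 0 ρ) :=
    (hN.mono hcb).mul ((hdu.mono hcb).div (hu.mono hcb)
      fun t ht => hu0 t (mem_closedBall_zero_iff.1 ht))
  have hkey : EqOn (fun t => N t * (deriv φ t / φ t))
      (fun t => (∑ j, (t - b j)⁻¹ • N t) + N t * (deriv u t / u t)) (sphere 0 ρ) := by
    intro t ht
    rw [mem_sphere_zero_iff_norm] at ht
    have htb : t ∈ ball (0 : ℂ) ρ' := by
      rw [mem_ball_zero_iff, ht]
      exact hlt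
    have hnej : ∀ j, t - b j ≠ 0 := fun j h => by
      have h1 := hb j
      rw [← sub_eq_zero.1 h, ht] at h1
      exact lt_irrefl _ h1
    have hl : logDeriv φ t = (∑ j, (t - b j)⁻¹) + logDeriv u t := by
      have h1 : φ =ᶠ[𝓝 t] fun s => (∏ j, (s - b j)) * u s := by
        filter_upwards [isOpen_ball.mem_nhds htb] with s hs using he s hs
      have h2 : logDeriv φ t = logDeriv (fun s => (∏ j, (s - b j)) * u s) t := by
        rw [logDeriv_apply, logDeriv_apply, h1.deriv_eq, h1.self_of_nhds]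
      have hdj : ∀ j, DifferentiableAt ℂ (fun s : ℂ => s - b j) t := fun j => by fun_prop
      have hdp : DifferentiableAt ℂ (fun s : ℂ => ∏ j, (s - b j)) t := by fun_prop
      rw [h2, logDeriv_mul t (f := fun s : ℂ => ∏ j, (s - b j)) (g := u)
        (Finset.prod_ne_zero_iff.2 fun j _ => hnej j) (hu0 t ht.le) hdp
        (hu.differentiableAt (isOpen_ball.mem_nhds htb))]
      congr 1
      rw [logDeriv_prod (f := fun j (s : ℂ) => s - b j) (fun j _ => hnej j) (fun j _ => hdj j)]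
      refine Finset.sum_congr rfl fun j _ => ?_
      rw [logDeriv_apply, deriv_sub_const, deriv_id'', one_div]
    simp only [logDeriv_apply] at hl
    simp only [smul_eq_mul]
    rw [hl, mul_add, Finset.mul_sum]
    congr 1
    exact Finset.sum_congr rfl fun j _ => mul_comm _ _
  rw [circleIntegral.integral_congr hρ.le hkey]
  have hint : ∀ j, CircleIntegrable (fun t => (t - b j)⁻¹ • N t) 0 ρ := by
    intro j
    refine ContinuousOn.circleIntegrable hρ.le ?_
    have hc1 : ContinuousOn (fun t : ℂ => t - b j) (sphere 0 ρ) := by fun_prop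
    refine ContinuousOn.smul (ContinuousOn.inv₀ hc1 ?_) ?_
    · intro t ht h
      have h1 := hb j
      rw [← sub_eq_zero.1 h, mem_sphere_zero_iff_norm.1 ht] at h1
      exact lt_irrefl _ h1
    · exact hN.continuousOn.mono (sphere_subset_closedBall.trans hcb)
  have hint' : CircleIntegrable (fun t => N t * (deriv u t / u t)) 0 ρ :=
    ContinuousOn.circleIntegrable hρ.le (hq.continuousOn.mono sphere_subset_closedBall)
  have hsum : CircleIntegrable (fun t => ∑ j, (t - b j)⁻¹ • N t) 0 ρ :=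
    CircleIntegrable.fun_sum _ fun j _ => hint j
  have hz : (∮ t in C(0, ρ), N t * (deriv u t / u t)) = 0 :=
    Complex.circleIntegral_eq_zero_of_differentiable_on_off_countable hρ.le
      (Set.countable_empty) hq.continuousOn fun z hz =>
        (hq z (ball_subset_closedBall hz.1)).differentiableAt (closedBall_mem_nhds_of_mem hz.1)
  rw [circleIntegral.integral_add hsum hint', hz, add_zero,
    circleIntegral.integral_fun_sum fun j _ => hint j, Finset.mul_sum]
  refine Finset.sum_congr rfl fun j _ => ?_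
  have h1 := (hN.mono hcb).circleIntegral_sub_inv_smul (w := b j)
    (by rw [mem_ball_zero_iff]; exact hb j)
  rw [h1, smul_eq_mul]

/-- The lower bound by the product of the distances from the zeros. -/
theorem lower (hρ : 0 < ρ) (hlt : ρ < ρ') (hb : ∀ j, ‖b j‖ < ρ)
    (hu : DifferentiableOn ℂ u (ball 0 ρ')) (hu0 : ∀ t, ‖t‖ ≤ ρ → u t ≠ 0)
    (he : ∀ t ∈ ball (0 : ℂ) ρ', φ t = (∏ j, (t - b j)) * u t) {m : ℝ} (hm : 0 ≤ m)
    (h : ∀ t, ‖t‖ = ρ → m ≤ ‖φ t‖) :
    ∀ t, ‖t‖ ≤ ρ → m / (2 * ρ) ^ d * ∏ j, ‖t - b j‖ ≤ ‖φ t‖ := by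
  intro t ht
  have hnorm : ∀ t : ℂ, ‖t‖ ≤ ρ → ‖φ t‖ = (∏ j, ‖t - b j‖) * ‖u t‖ := by
    intro t ht
    rw [he t (by rw [mem_ball_zero_iff]; exact ht.trans_lt hlt), norm_mul, norm_prod]
  have hd : 0 < (2 * ρ) ^ d := by positivity
  rcases hm.eq_or_lt with rfl | hm
  · rw [zero_div, zero_mul]
    exact norm_nonneg _
  have hub : ∀ t, ‖t‖ ≤ ρ → m / (2 * ρ) ^ d ≤ ‖u t‖ := by
    intro t ht
    have hdc : DiffContOnCl ℂ (fun s => (u s)⁻¹) (ball 0 ρ) := by
      refine DifferentiableOn.diffContOnCl ?_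
      rw [closure_ball _ hρ.ne']
      exact (hu.mono (closedBall_subset_ball hlt)).inv
        fun s hs => hu0 s (mem_closedBall_zero_iff.1 hs)
    have h1 := Complex.norm_le_of_forall_mem_frontier_norm_le (isBounded_ball) hdc
      (C := (2 * ρ) ^ d / m) ?_ (z := t) (by
        rw [closure_ball _ hρ.ne', mem_closedBall_zero_iff]
        exact ht)
    · rw [norm_inv] at h1
      have h2 : 0 < ‖u t‖ := norm_pos_iff.2 (hu0 t ht)
      rw [inv_le_comm₀ h2 (by positivity), inv_div] at h1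
      exact h1
    · intro s hs
      rw [frontier_ball _ hρ.ne', mem_sphere_zero_iff_norm] at hs
      have h2 : 0 < ‖u s‖ := norm_pos_iff.2 (hu0 s hs.le)
      rw [norm_inv, inv_le_comm₀ h2 (by positivity), inv_div, div_le_iff₀ hd]
      have h3 := h s hs
      rw [hnorm s hs.le] at h3
      have h4 : ∏ j, ‖s - b j‖ ≤ (2 * ρ) ^ d := by
        calc ∏ j, ‖s - b j‖ ≤ ∏ _j : Fin d, (2 * ρ) := by
              refine Finset.prod_le_prod (fun j _ => norm_nonneg _) fun j _ => ?_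
              have := norm_sub_le s (b j)
              have := hb j
              linarith
          _ = (2 * ρ) ^ d := by simp
      calc m ≤ (∏ j, ‖s - b j‖) * ‖u s‖ := h3
        _ ≤ (2 * ρ) ^ d * ‖u s‖ := mul_le_mul_of_nonneg_right h4 h2.le
        _ = ‖u s‖ * (2 * ρ) ^ d := mul_comm _ _
  rw [hnorm t ht, mul_comm]
  exact mul_le_mul_of_nonneg_left (hub t ht) (Finset.prod_nonneg fun j _ => norm_nonneg _)

end

end Pool.Agent.KRFLj

end

section

open Metric Set Filter Topology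
open scoped Real

namespace Pool.Agent.KRFLj

/-- A contour integral of a holomorphic function depends holomorphically on a translation. -/
theorem differentiableOn_circle {E : Type} [NormedAddCommGroup E] [NormedSpace ℂ E]
    [FiniteDimensional ℂ E] {U A : Set E} (hU : IsOpen U) (hA : IsOpen A) {Φ : E → ℂ}
    (hΦ : DifferentiableOn ℂ Φ U) {ρ : ℝ} (hρ : 0 ≤ ρ) {v : E}
    (h : ∀ z ∈ A, ∀ t : ℂ, ‖t‖ = ρ → z + t • v ∈ U) :
    DifferentiableOn ℂ (fun z => ∮ t in C(0, ρ), Φ (z + t • v)) A := by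
  intro z₀ hz₀
  have hpr : ProperSpace E := FiniteDimensional.proper ℂ E
  have hn : ∀ θ : ℝ, ‖circleMap 0 ρ θ‖ = ρ := fun θ => by
    rw [norm_circleMap_zero, abs_of_nonneg hρ]
  obtain ⟨ε, hε, hεA⟩ : ∃ ε > 0, closedBall z₀ ε ⊆ A := by
    obtain ⟨ε, hε, h1⟩ := Metric.isOpen_iff.1 hA z₀ hz₀
    exact ⟨ε / 2, by positivity, (closedBall_subset_ball (by linarith)).trans h1⟩
  have hΦc : ContDiffOn ℂ 1 Φ U := SCV.contDiffOn_of_differentiableOn hU hΦ (n := 1)
  have hDc : ContinuousOn (fderiv ℂ Φ) U := hΦc.continuousOn_fderiv_of_isOpen hU le_rfl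
  have hmap : Continuous (fun p : E × ℝ => p.1 + circleMap 0 ρ p.2 • v) := by fun_prop
  set K : Set E := (fun p : E × ℝ => p.1 + circleMap 0 ρ p.2 • v) ''
    (closedBall z₀ ε ×ˢ Icc 0 (2 * π)) with hK
  have hKc : IsCompact K := ((isCompact_closedBall z₀ ε).prod isCompact_Icc).image hmap
  have hKU : K ⊆ U := by
    rintro _ ⟨⟨z, θ⟩, ⟨hz, -⟩, rfl⟩
    exact h z (hεA hz) _ (hn θ)
  obtain ⟨C, hC⟩ := hKc.exists_bound_of_continuousOn (hDc.mono hKU)
  have hcF : ∀ z ∈ A, Continuous (fun θ : ℝ => deriv (circleMap 0 ρ) θ •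
      Φ (z + circleMap 0 ρ θ • v)) := by
    intro z hz
    have h1 : Continuous (fun θ : ℝ => Φ (z + circleMap 0 ρ θ • v)) :=
      hΦ.continuousOn.comp_continuous (by fun_prop) (fun θ => h z hz _ (hn θ))
    have h2 : Continuous (fun θ : ℝ => deriv (circleMap 0 ρ) θ) := by
      simp only [deriv_circleMap]
      fun_prop
    exact h2.smul h1
  have hcF' : ∀ z ∈ A, Continuous (fun θ : ℝ => deriv (circleMap 0 ρ) θ •
      fderiv ℂ Φ (z + circleMap 0 ρ θ • v)) := by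
    intro z hz
    have h1 : Continuous (fun θ : ℝ => fderiv ℂ Φ (z + circleMap 0 ρ θ • v)) :=
      hDc.comp_continuous (by fun_prop) (fun θ => h z hz _ (hn θ))
    have h2 : Continuous (fun θ : ℝ => deriv (circleMap 0 ρ) θ) := by
      simp only [deriv_circleMap]
      fun_prop
    exact h2.smul h1
  have key : HasFDerivAt (fun z => ∫ θ in (0 : ℝ)..2 * π, deriv (circleMap 0 ρ) θ •
      Φ (z + circleMap 0 ρ θ • v))
      (∫ θ in (0 : ℝ)..2 * π, deriv (circleMap 0 ρ) θ • fderiv ℂ Φ (z₀ + circleMap 0 ρ θ • v))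
      z₀ := by
    refine intervalIntegral.hasFDerivAt_integral_of_dominated_of_fderiv_le
      (F' := fun z θ => deriv (circleMap 0 ρ) θ • fderiv ℂ Φ (z + circleMap 0 ρ θ • v))
      (bound := fun _ => ρ * C) (ball_mem_nhds z₀ hε) ?_ ?_ ?_ ?_ ?_ ?_
    · filter_upwards [ball_mem_nhds z₀ hε] with z hz
      exact (hcF z (hεA (ball_subset_closedBall hz))).aestronglyMeasurable
    · exact (hcF z₀ hz₀).intervalIntegrable _ _
    · exact (hcF' z₀ hz₀).aestronglyMeasurable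
    · refine Eventually.of_forall fun θ hθ z hz => ?_
      rw [uIoc_of_le Real.two_pi_pos.le] at hθ
      rw [norm_smul]
      have h1 : ‖deriv (circleMap 0 ρ) θ‖ = ρ := by
        rw [deriv_circleMap, norm_mul, hn, Complex.norm_I, mul_one]
      rw [h1]
      exact mul_le_mul_of_nonneg_left (hC _ ⟨(z, θ), ⟨ball_subset_closedBall hz,
        Ioc_subset_Icc_self hθ⟩, rfl⟩) hρ
    · exact intervalIntegrable_const
    · refine Eventually.of_forall fun θ hθ z hz => ?_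
      have h1 : HasFDerivAt Φ (fderiv ℂ Φ (z + circleMap 0 ρ θ • v)) (z + circleMap 0 ρ θ • v) :=
        (hΦ.differentiableAt (hU.mem_nhds
          (h z (hεA (ball_subset_closedBall hz)) _ (hn θ)))).hasFDerivAt
      have h2 : HasFDerivAt (fun z => Φ (z + circleMap 0 ρ θ • v))
          (fderiv ℂ Φ (z + circleMap 0 ρ θ • v)) z :=
        (hasFDerivAt_comp_add_right (circleMap 0 ρ θ • v)).2 h1
      exact h2.const_smul (deriv (circleMap 0 ρ) θ)
  exact key.differentiableAt.differentiableWithinAt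

/-- A family of naturals whose multiples by a constant depend continuously on the point is
constant on connected sets. -/
theorem const_nat {E : Type} [TopologicalSpace E] {A : Set E} (hA : IsPreconnected A)
    {d : E → ℕ} {J : E → ℂ} (hJ : ContinuousOn J A)
    (h : ∀ z ∈ A, J z = 2 * π * Complex.I * d z) {z z' : E} (hz : z ∈ A) (hz' : z' ∈ A) :
    d z = d z' := by
  have h1 : ContinuousOn (fun z => ((d z : ℕ) : ℝ)) A := by
    have h2 : ContinuousOn (fun z => (J z / (2 * π * Complex.I)).re) A :=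
      Complex.continuous_re.comp_continuousOn (hJ.div_const _)
    refine h2.congr fun z hz => ?_
    have h3 : J z / (2 * π * Complex.I) = ((d z : ℝ) : ℂ) := by
      rw [h z hz, mul_div_cancel_left₀ _ Complex.two_pi_I_ne_zero]
      simp
    simp only [h3, Complex.ofReal_re]
  have h4 : ContinuousOn d A :=
    (Nat.isClosedEmbedding_coe_real.isInducing.continuousOn_iff).2 h1
  exact hA.constant h4 hz hz'

end Pool.Agent.KRFLj

end

section

/-!
# The zeros of a holomorphic function on parallel discs, with the trace formula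
-/

open Metric Set Filter Topology
open scoped Real

namespace Pool.Agent.KRFLj

variable {E : Type} [NormedAddCommGroup E] [NormedSpace ℂ E]

/-- The zeros of `t ↦ G (z + t v)` in a disc, with the trace formula. -/
theorem exists_roots [FiniteDimensional ℂ E] {G : E → ℂ} {δ₀ : ℝ} (hδ₀ : 0 < δ₀)
    (hG : DifferentiableOn ℂ G (ball 0 δ₀)) (hG0 : G 0 = 0) {v : E}
    (hv : ¬ ∀ᶠ t : ℂ in 𝓝 0, G (t • v) = 0) :
    ∃ (ρ δ c : ℝ) (d : ℕ) (β : E → Fin d → ℂ), 0 < ρ ∧ 0 < δ ∧ 0 < c ∧ 0 < d ∧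
      (∀ z ∈ ball (0 : E) δ, ∀ t : ℂ, ‖t‖ ≤ ρ → z + t • v ∈ ball (0 : E) δ₀) ∧
      (∀ z ∈ ball (0 : E) δ, ∀ j, ‖β z j‖ < ρ ∧ G (z + β z j • v) = 0) ∧
      (∀ z ∈ ball (0 : E) δ, ∀ t : ℂ, ‖t‖ ≤ ρ → c * ∏ j, ‖t - β z j‖ ≤ ‖G (z + t • v)‖) ∧
      ∀ N : E → ℂ, DifferentiableOn ℂ N (ball 0 δ₀) →
        DifferentiableOn ℂ (fun z => ∑ j, N (z + β z j • v)) (ball 0 δ) := by
  classical
  -- the vector is not zero
  have hv0 : v ≠ 0 := by
    rintro rfl
    exact hv (Eventually.of_forall fun t => by simp [hG0])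
  have hvn : 0 < ‖v‖ := norm_pos_iff.2 hv0
  -- radii
  set ρ' : ℝ := δ₀ / (2 * ‖v‖) with hρ'
  have hρ'0 : 0 < ρ' := by positivity
  have hmem : ∀ z ∈ ball (0 : E) (δ₀ / 2), ∀ t : ℂ, t ∈ ball (0 : ℂ) ρ' →
      z + t • v ∈ ball (0 : E) δ₀ := by
    intro z hz t ht
    rw [mem_ball_zero_iff] at hz ht ⊢
    have h1 : ‖t • v‖ < δ₀ / 2 := by
      rw [norm_smul]
      calc ‖t‖ * ‖v‖ < ρ' * ‖v‖ := mul_lt_mul_of_pos_right ht hvn
        _ = δ₀ / 2 := by rw [hρ']; field_simp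
    calc ‖z + t • v‖ ≤ ‖z‖ + ‖t • v‖ := norm_add_le _ _
      _ < δ₀ / 2 + δ₀ / 2 := add_lt_add hz h1
      _ = δ₀ := by ring
  have hline : ∀ z ∈ ball (0 : E) (δ₀ / 2), ∀ N : E → ℂ, DifferentiableOn ℂ N (ball 0 δ₀) →
      DifferentiableOn ℂ (fun t : ℂ => N (z + t • v)) (ball 0 ρ') := by
    intro z hz N hN
    refine hN.comp ?_ (fun t ht => hmem z hz t ht)
    exact ((differentiable_id.smul_const v).const_add z).differentiableOn
  have h0m : (0 : E) ∈ ball (0 : E) (δ₀ / 2) := mem_ball_self (by positivity)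
  -- isolated zero on the line
  have hφan : AnalyticAt ℂ (fun t : ℂ => G (t • v)) 0 := by
    have h1 := hline 0 h0m G hG
    simp only [zero_add] at h1
    exact h1.analyticAt (isOpen_ball.mem_nhds (mem_ball_self hρ'0))
  have hiso : ∀ᶠ t : ℂ in 𝓝[≠] 0, G (t • v) ≠ 0 :=
    (hφan.eventually_eq_zero_or_eventually_ne_zero).resolve_left hv
  obtain ⟨ε, hε, hεG⟩ : ∃ ε > 0, ∀ t : ℂ, t ≠ 0 → ‖t‖ < ε → G (t • v) ≠ 0 := by
    rw [eventually_nhdsWithin_iff, Metric.eventually_nhds_iff] at hiso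
    obtain ⟨ε, hε, h1⟩ := hiso
    exact ⟨ε, hε, fun t ht hlt => h1 (by rwa [dist_zero_right]) ht⟩
  set ρ : ℝ := min (ε / 2) (ρ' / 2) with hρ
  have hρ0 : 0 < ρ := lt_min (by positivity) (by positivity)
  have hρε : ρ < ε := (min_le_left _ _).trans_lt (by linarith)
  have hρρ' : ρ < ρ' := (min_le_right _ _).trans_lt (by linarith)
  -- lower bound on the circle
  have hsph : ∀ t : ℂ, t ∈ sphere (0 : ℂ) ρ → G ((0 : E) + t • v) ≠ 0 := by
    intro t ht
    rw [mem_sphere_zero_iff_norm] at ht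
    rw [zero_add]
    exact hεG t (fun h => by rw [h, norm_zero] at ht; exact hρ0.ne ht) (ht ▸ hρε)
  have hcG : ∀ t : ℂ, t ∈ sphere (0 : ℂ) ρ →
      ContinuousAt (fun p : E × ℂ => G (p.1 + p.2 • v)) ((0 : E), t) := by
    intro t ht
    rw [mem_sphere_zero_iff_norm] at ht
    have h1 : ContinuousAt G ((0 : E) + t • v) :=
      (hG.differentiableAt (isOpen_ball.mem_nhds (hmem 0 h0m t
        (by rw [mem_ball_zero_iff, ht]; exact hρρ')))).continuousAt
    exact ContinuousAt.comp (f := fun p : E × ℂ => p.1 + p.2 • v) (x := ((0 : E), t)) h1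
      (by fun_prop)
  obtain ⟨m, hm, hmG⟩ : ∃ m : ℝ, 0 < m ∧ ∀ t : ℂ, t ∈ sphere (0 : ℂ) ρ →
      m < ‖G ((0 : E) + t • v)‖ := by
    have hcomp : IsCompact (sphere (0 : ℂ) ρ) := isCompact_sphere _ _
    have hne : (sphere (0 : ℂ) ρ).Nonempty := NormedSpace.sphere_nonempty.2 hρ0.le
    have hcont : ContinuousOn (fun t : ℂ => ‖G ((0 : E) + t • v)‖) (sphere (0 : ℂ) ρ) := by
      have h1 := (hline 0 h0m G hG).continuousOn.norm
      exact h1.mono fun t ht => by
        rw [mem_sphere_zero_iff_norm] at ht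
        rw [mem_ball_zero_iff, ht]; exact hρρ'
    obtain ⟨t₀, ht₀, hmin⟩ := hcomp.exists_isMinOn hne hcont
    have hp : 0 < ‖G ((0 : E) + t₀ • v)‖ := norm_pos_iff.2 (hsph t₀ ht₀)
    refine ⟨‖G ((0 : E) + t₀ • v)‖ / 2, by positivity, fun t ht => ?_⟩
    have : ‖G ((0 : E) + t₀ • v)‖ ≤ ‖G ((0 : E) + t • v)‖ := hmin ht
    linarith
  have hev : ∀ᶠ z in 𝓝 (0 : E), ∀ t ∈ sphere (0 : ℂ) ρ, m < ‖G (z + t • v)‖ := by
    refine (isCompact_sphere (0 : ℂ) ρ).eventually_forall_of_forall_eventually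
      (P := fun z t => m < ‖G (z + t • v)‖) fun t ht => ?_
    exact (hcG t ht).norm.eventually_const_lt (hmG t ht)
  obtain ⟨δ₁, hδ₁, hδ₁G⟩ := Metric.eventually_nhds_iff.1 hev
  set δ : ℝ := min δ₁ (δ₀ / 2) with hδ
  have hδ0 : 0 < δ := lt_min hδ₁ (by positivity)
  have hδ2 : ∀ z ∈ ball (0 : E) δ, z ∈ ball (0 : E) (δ₀ / 2) := fun z hz =>
    ball_subset_ball (min_le_right _ _) hz
  have hlow : ∀ z ∈ ball (0 : E) δ, ∀ t : ℂ, ‖t‖ = ρ → m < ‖G (z + t • v)‖ := by
    intro z hz t ht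
    refine hδ₁G ?_ t (mem_sphere_zero_iff_norm.2 ht)
    exact lt_of_lt_of_le (mem_ball.1 hz) (min_le_left _ _)
  have hne : ∀ z ∈ ball (0 : E) δ, ∀ t : ℂ, ‖t‖ = ρ → G (z + t • v) ≠ 0 := fun z hz t ht h0 => by
    have := hlow z hz t ht
    rw [h0, norm_zero] at this
    exact lt_asymm this hm
  -- factorization for every point
  have hfac : ∀ z : E, ∃ (d : ℕ) (b : Fin d → ℂ) (u : ℂ → ℂ), z ∈ ball (0 : E) δ →
      (∀ j, ‖b j‖ < ρ) ∧ DifferentiableOn ℂ u (ball 0 ρ') ∧ (∀ t, ‖t‖ ≤ ρ → u t ≠ 0) ∧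
      ∀ t ∈ ball (0 : ℂ) ρ', G (z + t • v) = (∏ j, (t - b j)) * u t := by
    intro z
    by_cases hz : z ∈ ball (0 : E) δ
    · obtain ⟨d, b, u, h⟩ := factor hρ0 hρρ' (hline z (hδ2 z hz) G hG) (hne z hz)
      exact ⟨d, b, u, fun _ => h⟩
    · exact ⟨0, fun _ => 0, fun _ => 0, fun h => absurd h hz⟩
  choose dd bb uu hdd using hfac
  -- the trace formula
  set U : Set E := {x ∈ ball (0 : E) δ₀ | G x ≠ 0} with hU
  have hUo : IsOpen U := by
    have h1 : U = ball (0 : E) δ₀ ∩ G ⁻¹' {0}ᶜ := by ext x; simp [hU]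
    rw [h1]
    exact hG.continuousOn.isOpen_inter_preimage isOpen_ball isOpen_compl_singleton
  have htr : ∀ N : E → ℂ, DifferentiableOn ℂ N (ball 0 δ₀) → ∀ z ∈ ball (0 : E) δ,
      (∮ t in C(0, ρ), N (z + t • v) * (fderiv ℂ G (z + t • v) v / G (z + t • v))) =
        2 * π * Complex.I * ∑ j, N (z + bb z j • v) := by
    intro N hN z hz
    obtain ⟨h1, h2, h3, h4⟩ := hdd z hz
    rw [← residue (N := fun t : ℂ => N (z + t • v)) hρ0 hρρ' h1 h2 h3 h4
      (hline z (hδ2 z hz) N hN)]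
    refine circleIntegral.integral_congr hρ0.le fun t ht => ?_
    rw [mem_sphere_zero_iff_norm] at ht
    have h5 : HasDerivAt (fun t : ℂ => G (z + t • v)) (fderiv ℂ G (z + t • v) v) t := by
      have h6 : HasFDerivAt G (fderiv ℂ G (z + t • v)) (z + t • v) :=
        (hG.differentiableAt (isOpen_ball.mem_nhds (hmem z (hδ2 z hz) t
          (by rw [mem_ball_zero_iff, ht]; exact hρρ')))).hasFDerivAt
      have h7 : HasDerivAt (fun t : ℂ => z + t • v) v t := by
        simpa using ((hasDerivAt_id t).smul_const v).const_add z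
      exact h6.comp_hasDerivAt t h7
    simp only [h5.deriv]
  have hhol : ∀ N : E → ℂ, DifferentiableOn ℂ N (ball 0 δ₀) → DifferentiableOn ℂ
      (fun z => ∮ t in C(0, ρ), N (z + t • v) * (fderiv ℂ G (z + t • v) v / G (z + t • v)))
      (ball 0 δ) := by
    intro N hN
    have hpr : ProperSpace E := FiniteDimensional.proper ℂ E
    refine differentiableOn_circle (Φ := fun x => N x * (fderiv ℂ G x v / G x)) hUo isOpen_ball
      ?_ hρ0.le ?_
    · have hs : U ⊆ ball (0 : E) δ₀ := fun x hx => hx.1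
      have h1 : DifferentiableOn ℂ (fun x => fderiv ℂ G x v) U :=
        (SCV.differentiableOn_fderiv_apply isOpen_ball hG v).mono hs
      have h2 : DifferentiableOn ℂ (fun x => fderiv ℂ G x v / G x) U := by
        have h3 : DifferentiableOn ℂ (fun x => (G x)⁻¹) U := (hG.mono hs).inv fun x hx => hx.2
        refine (h1.mul h3).congr fun x _ => ?_
        rw [div_eq_mul_inv]
        rfl
      exact (hN.mono hs).mul h2
    · intro z hz t ht
      exact ⟨hmem z (hδ2 z hz) t (by rw [mem_ball_zero_iff, ht]; exact hρρ'), hne z hz t ht⟩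
  -- the number of zeros is constant
  have hconst : ∀ z ∈ ball (0 : E) δ, dd z = dd 0 := by
    intro z hz
    refine const_nat (convex_ball (0 : E) δ).isPreconnected (d := dd)
      (hhol (fun _ => 1) (differentiableOn_const 1)).continuousOn (fun z hz => ?_) hz
      (mem_ball_self hδ0)
    rw [htr (fun _ => 1) (differentiableOn_const 1) z hz]
    simp
  have hex : ∀ z : E, ∃ b : Fin (dd 0) → ℂ, z ∈ ball (0 : E) δ →
      (∀ j, ‖b j‖ < ρ ∧ G (z + b j • v) = 0) ∧
      (∀ t : ℂ, ‖t‖ ≤ ρ → m / (2 * ρ) ^ dd 0 * ∏ j, ‖t - b j‖ ≤ ‖G (z + t • v)‖) ∧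
      ∀ N : E → ℂ, ∑ j, N (z + b j • v) = ∑ j, N (z + bb z j • v) := by
    intro z
    by_cases hz : z ∈ ball (0 : E) δ
    · obtain ⟨h1, h2, h3, h4⟩ := hdd z hz
      have h5 := lower hρ0 hρρ' h1 h2 h3 h4 hm.le (fun t ht => (hlow z hz t ht).le)
      have h6 : ∀ j, G (z + bb z j • v) = 0 := by
        intro j
        rw [h4 _ (by rw [mem_ball_zero_iff]; exact (h1 j).trans hρρ'),
          Finset.prod_eq_zero (Finset.mem_univ j) (sub_self _), zero_mul]
      have h7 := hconst z hz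
      rw [← h7]
      exact ⟨bb z, fun _ => ⟨fun j => ⟨h1 j, h6 j⟩, h5, fun N => rfl⟩⟩
    · exact ⟨fun _ => 0, fun h => absurd h hz⟩
  choose β hβ using hex
  refine ⟨ρ, δ, m / (2 * ρ) ^ dd 0, dd 0, β, hρ0, hδ0, by positivity, ?_, ?_, ?_, ?_, ?_⟩
  · -- there is a zero
    rcases Nat.eq_zero_or_pos (dd 0) with h0 | h0
    · exfalso
      obtain ⟨h1, h2, h3, h4⟩ := hdd 0 (mem_ball_self hδ0)
      have h5 := h4 0 (mem_ball_self hρ'0)
      rw [zero_smul, add_zero, hG0] at h5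
      have h6 : (∏ j, ((0 : ℂ) - bb 0 j)) = 1 := by
        refine Finset.prod_eq_one fun j _ => ?_
        have := j.2
        omega
      rw [h6, one_mul] at h5
      exact h3 0 (by rw [norm_zero]; exact hρ0.le) h5.symm
    · exact h0
  · intro z hz t ht
    exact hmem z (hδ2 z hz) t (by rw [mem_ball_zero_iff]; exact ht.trans_lt hρρ')
  · intro z hz
    exact (hβ z hz).1
  · intro z hz
    exact (hβ z hz).2.1
  · intro N hN
    have h1 := (hhol N hN).const_mul ((2 * π * Complex.I)⁻¹)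
    refine h1.congr fun z hz => ?_
    rw [(hβ z hz).2.2 N, htr N hN z hz, ← mul_assoc, inv_mul_cancel₀ Complex.two_pi_I_ne_zero,
      one_mul]

end Pool.Agent.KRFLj

end

section

/-!
# Coefficient fields of valuation rings of algebraically closed fields (helper2)
-/

open Polynomial

namespace Pool.Agent.KRFN

namespace Coef

variable {K : Type*} [Field K]

/-- the subfields contained in `A` which contain `k` -/
theorem exists_max (A : ValuationSubring K) (k : Subfield K) (hk : ∀ x ∈ k, x ∈ A) :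
    ∃ k₀ : Subfield K, k ≤ k₀ ∧ (∀ x ∈ k₀, x ∈ A) ∧
      ∀ k₁ : Subfield K, (∀ x ∈ k₁, x ∈ A) → k₀ ≤ k₁ → k₁ ≤ k₀ := by
  obtain ⟨k₀, h1, h2⟩ := zorn_le_nonempty₀ {k' : Subfield K | ∀ x ∈ k', x ∈ A} (by
    intro c hc hch y hy
    refine ⟨sSup c, ?_, fun z hz => le_sSup hz⟩
    intro x hx
    rw [Subfield.mem_sSup_of_directedOn ⟨y, hy⟩ hch.directedOn] at hx
    obtain ⟨s, hs, hxs⟩ := hx
    exact hc hs x hxs) k hk
  exact ⟨k₀, h1, h2.1, fun k₁ hk₁ hle => h2.2 hk₁ hle⟩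

theorem prod_val {A : ValuationSubring K} {s : Multiset K}
    (h : A.valuation s.prod < 1) (hs : ∀ x ∈ s, x ∈ A) : ∃ x ∈ s, A.valuation x < 1 := by
  induction s using Multiset.induction_on with
  | empty =>
    rw [Multiset.prod_zero, map_one] at h
    exact absurd h (lt_irrefl _)
  | cons a s ih =>
    rw [Multiset.prod_cons, map_mul] at h
    by_cases ha : A.valuation a < 1
    · exact ⟨a, Multiset.mem_cons_self a s, ha⟩
    · have ha1 : A.valuation a = 1 :=
        le_antisymm ((A.valuation_le_one_iff a).2 (hs a (Multiset.mem_cons_self a s)))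
          (not_lt.1 ha)
      rw [ha1, one_mul] at h
      obtain ⟨x, hx, hx'⟩ := ih h fun x hx => hs x (Multiset.mem_cons_of_mem hx)
      exact ⟨x, Multiset.mem_cons_of_mem hx, hx'⟩

/-- **coefficient fields**: a maximal subfield of a valuation ring of an algebraically closed field
is mapped onto the residue field -/
theorem exists_coefficient_field [IsAlgClosed K] (A : ValuationSubring K) (k : Subfield K)
    (hk : ∀ x ∈ k, x ∈ A) : ∃ k₀ : Subfield K, k ≤ k₀ ∧ (∀ x ∈ k₀, x ∈ A) ∧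
      ∀ a ∈ A, ∃ b ∈ k₀, A.valuation (a - b) < 1 := by
  obtain ⟨k₀, hk₀, hA, hmax⟩ := exists_max A k hk
  refine ⟨k₀, hk₀, hA, fun a ha => ?_⟩
  by_contra hcon
  push Not at hcon
  -- nonzero elements of `k₀` have valuation one
  have hone : ∀ b ∈ k₀, b ≠ 0 → A.valuation b = 1 := by
    intro b hb hb0
    refine le_antisymm ((A.valuation_le_one_iff b).2 (hA b hb)) ?_
    have h1 := (A.valuation_le_one_iff b⁻¹).2 (hA _ (k₀.inv_mem hb))
    rw [map_inv₀] at h1
    have h2 : A.valuation b ≠ 0 := (Valuation.ne_zero_iff _).2 hb0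
    exact (inv_le_one₀ (zero_lt_iff.2 h2)).1 h1
  have hev : ∀ P : k₀[X], aeval a P ∈ A := by
    intro P
    rw [aeval_eq_sum_range]
    refine sum_mem fun i _ => ?_
    rw [Algebra.smul_def]
    exact A.mul_mem _ _ (hA _ (P.coeff i).2) (pow_mem ha i)
  by_cases hP : ∃ P : k₀[X], P ≠ 0 ∧ A.valuation (aeval a P) < 1
  · -- the algebraic case
    obtain ⟨P, hP0, hPa⟩ := hP
    -- `k₀` is algebraically closed in `K`
    have halg : ∀ α : K, IsIntegral k₀ α → α ∈ k₀ := by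
      intro α hα
      have h1 := hmax (algebraicClosure k₀ K).toSubfield (by
        intro x hx
        have hx' : IsAlgebraic k₀ x := mem_algebraicClosure_iff.1 hx
        have hx2 : IsIntegral k₀ x := hx'.isIntegral
        obtain ⟨p, hpm, hp⟩ := hx2
        have : IsIntegral A x := by
          refine ⟨p.map (Subring.inclusion (S := k₀.toSubring) (T := A.toSubring)
            (fun y hy => hA y hy)), hpm.map _, ?_⟩
          rw [eval₂_map]
          exact hp
        obtain ⟨y, hy⟩ := IsIntegrallyClosed.isIntegral_iff.1 this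
        rw [← hy]
        exact y.2) (fun x hx => (algebraicClosure k₀ K).algebraMap_mem ⟨x, hx⟩)
      exact h1 (mem_algebraicClosure_iff.2 hα.isAlgebraic)
    set Q := P.map (algebraMap k₀ K) with hQ
    have hQ0 : Q ≠ 0 := (Polynomial.map_ne_zero_iff (algebraMap k₀ K).injective).2 hP0
    have hsplit := IsAlgClosed.splits Q
    have hroots : ∀ α ∈ Q.roots, α ∈ k₀ := by
      intro α hα
      apply halg
      have h1 : aeval α P = 0 := by
        rw [← eval_map_algebraMap]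
        exact (mem_roots hQ0).1 hα
      exact (isAlgebraic_iff_isIntegral.1 ⟨P, hP0, h1⟩)
    have hfac : aeval a P = Q.leadingCoeff * (Q.roots.map fun α => a - α).prod := by
      rw [← eval_map_algebraMap, ← hQ]
      conv_lhs => rw [hsplit.eq_prod_roots]
      rw [eval_mul, eval_C, eval_multiset_prod, Multiset.map_map]
      simp
    rw [hfac, map_mul] at hPa
    have hlc : A.valuation Q.leadingCoeff = 1 := by
      apply hone
      · rw [hQ, leadingCoeff_map]
        exact (P.leadingCoeff).2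
      · exact leadingCoeff_ne_zero.2 hQ0
    rw [hlc, one_mul] at hPa
    obtain ⟨x, hx, hx'⟩ := prod_val hPa (by
      intro x hx
      obtain ⟨α, hα, rfl⟩ := Multiset.mem_map.1 hx
      exact sub_mem ha (hA α (hroots α hα)))
    obtain ⟨α, hα, rfl⟩ := Multiset.mem_map.1 hx
    exact absurd hx' (not_lt.2 (hcon α (hroots α hα)))
  · -- the transcendental case
    push Not at hP
    have hunit : ∀ P : k₀[X], P ≠ 0 → A.valuation (aeval a P) = 1 := fun P hP0 =>
      le_antisymm ((A.valuation_le_one_iff _).2 (hev P)) (hP P hP0)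
    have h1 := hmax (IntermediateField.adjoin k₀ {a}).toSubfield (by
      intro x hx
      obtain ⟨r, s, rfl⟩ := (IntermediateField.mem_adjoin_simple_iff k₀ x).1 hx
      by_cases hs : s = 0
      · rw [hs, map_zero, div_zero]
        exact A.zero_mem
      · rw [← A.valuation_le_one_iff, map_div₀, hunit s hs, div_one]
        exact (A.valuation_le_one_iff _).2 (hev r))
      (fun x hx => (IntermediateField.adjoin k₀ {a}).algebraMap_mem ⟨x, hx⟩)
    have h2 : a ∈ k₀ := h1 (IntermediateField.mem_adjoin_simple_self k₀ a)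
    have := hcon a h2
    rw [sub_self, map_zero] at this
    exact absurd this (not_le.2 zero_lt_one)

end Coef

end Pool.Agent.KRFN

end

section

/-!
# The ultrapower of `ℂ` at a logarithmic scale (helper2)
-/

open Polynomial Filter Topology

namespace Pool.Agent.KRFN

namespace Ultra

/-- the ultrapower of `ℂ` -/
abbrev KK : Type := Germ (hyperfilter ℕ : Filter ℕ) ℂ

noncomputable abbrev cr : (ℕ → ℂ) →+* KK := Germ.coeRingHom (hyperfilter ℕ : Filter ℕ)

theorem cr_surj (a : KK) : ∃ f : ℕ → ℂ, cr f = a :=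
  Quotient.inductionOn' a fun f => ⟨f, rfl⟩

theorem cr_eq {f g : ℕ → ℂ} : cr f = cr g ↔ ∀ᶠ j in (hyperfilter ℕ : Filter ℕ), f j = g j :=
  Germ.coe_eq

theorem cr_eq_zero {f : ℕ → ℂ} : cr f = 0 ↔ ∀ᶠ j in (hyperfilter ℕ : Filter ℕ), f j = 0 := by
  rw [← map_zero cr, cr_eq]
  rfl

theorem eventually_of_atTop {p : ℕ → Prop} (h : ∀ᶠ j in (atTop : Filter ℕ), p j) :
    ∀ᶠ j in (hyperfilter ℕ : Filter ℕ), p j := by
  rw [← Nat.cofinite_eq_atTop] at h
  exact hyperfilter_le_cofinite h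

theorem not_eventually {p : ℕ → Prop} (h : ¬∀ᶠ j in (hyperfilter ℕ : Filter ℕ), p j) :
    ∀ᶠ j in (hyperfilter ℕ : Filter ℕ), ¬p j :=
  Ultrafilter.eventually_not.2 h

theorem exists_of_eventually {p : ℕ → Prop} (h : ∀ᶠ j in (hyperfilter ℕ : Filter ℕ), p j) :
    ∃ j, p j :=
  h.exists

instance : IsAlgClosed KK := by
  refine IsAlgClosed.of_exists_root _ fun p hp hirr => ?_
  have hn : 0 < p.natDegree := hirr.natDegree_pos
  choose c hc using fun i => cr_surj (p.coeff i)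
  set n := p.natDegree with hndef
  have h1 : ∀ j : ℕ, ∃ r : ℂ, ∑ i ∈ Finset.range n, c i j * r ^ i + r ^ n = 0 := by
    intro j
    set q : ℂ[X] := ∑ i ∈ Finset.range n, C (c i j) * X ^ i with hq
    have hqd : q.degree < n := by
      refine (degree_sum_le _ _).trans_lt ?_
      rw [Finset.sup_lt_iff (by exact_mod_cast WithBot.bot_lt_coe n)]
      intro i hi
      exact (degree_C_mul_X_pow_le i _).trans_lt (by exact_mod_cast Finset.mem_range.1 hi)
    have hd : (X ^ n + q : ℂ[X]).degree = n := by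
      rw [degree_add_eq_left_of_degree_lt (by rwa [degree_X_pow]), degree_X_pow]
    obtain ⟨r, hr⟩ := IsAlgClosed.exists_root (X ^ n + q : ℂ[X]) (by
      rw [hd]
      exact_mod_cast hn.ne')
    refine ⟨r, ?_⟩
    have hr' : (X ^ n + q : ℂ[X]).eval r = 0 := hr
    rw [eval_add, eval_pow, eval_X, hq, eval_finsetSum] at hr'
    rw [add_comm, ← hr']
    congr 1
    refine Finset.sum_congr rfl fun i _ => ?_
    rw [eval_mul, eval_C, eval_pow, eval_X]
  choose r hr using h1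
  refine ⟨cr r, ?_⟩
  rw [eval_eq_sum_range, Finset.sum_range_succ, ← hndef]
  have h2 : p.coeff n = 1 := hp
  rw [h2, one_mul]
  have h3 : ∑ i ∈ Finset.range n, p.coeff i * cr r ^ i + cr r ^ n =
      cr (fun j => ∑ i ∈ Finset.range n, c i j * r j ^ i + r j ^ n) := by
    have h4 : (fun j => ∑ i ∈ Finset.range n, c i j * r j ^ i + r j ^ n) =
        ∑ i ∈ Finset.range n, c i * r ^ i + r ^ n := by
      funext j
      simp [Finset.sum_apply]
    rw [h4, map_add, map_sum, map_pow]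
    congr 1
    refine Finset.sum_congr rfl fun i _ => ?_
    rw [map_mul, map_pow, hc i]
  rw [h3, cr_eq_zero]
  exact Eventually.of_forall hr

/-- the valuation ring of the elements which are at most `exp (ε L)` for all `ε > 0` -/
noncomputable def OO (L : ℕ → ℝ) (hL : Tendsto L atTop atTop) : ValuationSubring KK where
  carrier := {a | ∃ f : ℕ → ℂ, cr f = a ∧ ∀ ε > 0, ∀ᶠ j in (hyperfilter ℕ : Filter ℕ),
    ‖f j‖ ≤ Real.exp (ε * L j)}
  mul_mem' := by
    rintro _ _ ⟨f, rfl, hf⟩ ⟨g, rfl, hg⟩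
    refine ⟨f * g, map_mul _ _ _, fun ε hε => ?_⟩
    filter_upwards [hf (ε / 2) (by positivity), hg (ε / 2) (by positivity)] with j h1 h2
    rw [Pi.mul_apply, norm_mul]
    calc ‖f j‖ * ‖g j‖ ≤ Real.exp (ε / 2 * L j) * Real.exp (ε / 2 * L j) :=
          mul_le_mul h1 h2 (norm_nonneg _) (Real.exp_pos _).le
      _ = Real.exp (ε * L j) := by
          rw [← Real.exp_add]
          congr 1
          ring
  one_mem' := by
    refine ⟨1, map_one _, fun ε hε => ?_⟩
    filter_upwards [eventually_of_atTop (hL.eventually_ge_atTop 0)] with j hj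
    rw [Pi.one_apply, norm_one]
    exact Real.one_le_exp (by positivity)
  add_mem' := by
    rintro _ _ ⟨f, rfl, hf⟩ ⟨g, rfl, hg⟩
    refine ⟨f + g, map_add _ _ _, fun ε hε => ?_⟩
    filter_upwards [hf (ε / 2) (by positivity), hg (ε / 2) (by positivity),
      eventually_of_atTop (hL.eventually_ge_atTop (2 / ε))] with j h1 h2 h3
    rw [Pi.add_apply]
    have h4 : 1 ≤ ε / 2 * L j := by
      calc (1 : ℝ) = ε / 2 * (2 / ε) := by field_simp
        _ ≤ ε / 2 * L j := mul_le_mul_of_nonneg_left h3 (by positivity)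
    have h5 : (2 : ℝ) ≤ Real.exp (ε / 2 * L j) := by
      have := Real.add_one_le_exp (ε / 2 * L j)
      linarith
    calc ‖f j + g j‖ ≤ Real.exp (ε / 2 * L j) + Real.exp (ε / 2 * L j) :=
          (norm_add_le _ _).trans (add_le_add h1 h2)
      _ = 2 * Real.exp (ε / 2 * L j) := by ring
      _ ≤ Real.exp (ε / 2 * L j) * Real.exp (ε / 2 * L j) :=
          mul_le_mul_of_nonneg_right h5 (Real.exp_pos _).le
      _ = Real.exp (ε * L j) := by
          rw [← Real.exp_add]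
          congr 1
          ring
  zero_mem' := by
    refine ⟨0, map_zero _, fun ε hε => Eventually.of_forall fun j => ?_⟩
    rw [Pi.zero_apply, norm_zero]
    exact (Real.exp_pos _).le
  neg_mem' := by
    rintro _ ⟨f, rfl, hf⟩
    refine ⟨-f, map_neg _ _, fun ε hε => ?_⟩
    filter_upwards [hf ε hε] with j h1
    rwa [Pi.neg_apply, norm_neg]
  mem_or_inv_mem' := by
    intro a
    obtain ⟨f, rfl⟩ := cr_surj a
    by_cases h : ∀ ε > 0, ∀ᶠ j in (hyperfilter ℕ : Filter ℕ), ‖f j‖ ≤ Real.exp (ε * L j)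
    · exact Or.inl ⟨f, rfl, h⟩
    · right
      push Not at h
      obtain ⟨ε, hε, h⟩ := h
      refine ⟨fun j => (f j)⁻¹, rfl, fun ε' hε' => ?_⟩
      filter_upwards [h, eventually_of_atTop (hL.eventually_ge_atTop 0)] with j h1 h2
      rw [norm_inv]
      have h3 : Real.exp (ε * L j) < ‖f j‖ := h1
      have h4 : 1 ≤ ‖f j‖ := (Real.one_le_exp (by positivity)).trans h3.le
      exact (inv_le_one_of_one_le₀ h4).trans (Real.one_le_exp (by positivity))

variable {L : ℕ → ℝ} {hL : Tendsto L atTop atTop}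

theorem mem_OO {f : ℕ → ℂ} : cr f ∈ OO L hL ↔
    ∀ ε > 0, ∀ᶠ j in (hyperfilter ℕ : Filter ℕ), ‖f j‖ ≤ Real.exp (ε * L j) := by
  constructor
  · rintro ⟨g, hg, h⟩ ε hε
    filter_upwards [cr_eq.1 hg, h ε hε] with j h1 h2
    rwa [← h1]
  · intro h
    exact ⟨f, rfl, h⟩

theorem mem_OO_of_bdd {f : ℕ → ℂ} {C : ℝ} (h : ∀ j, ‖f j‖ ≤ C) : cr f ∈ OO L hL := by
  rw [mem_OO]
  intro ε hε
  filter_upwards [eventually_of_atTop (hL.eventually_ge_atTop (C / ε))] with j hj
  have h1 : C ≤ ε * L j := by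
    calc C = ε * (C / ε) := by field_simp
      _ ≤ ε * L j := mul_le_mul_of_nonneg_left hj hε.le
  have := Real.add_one_le_exp (ε * L j)
  linarith [h j]

theorem cr_inv (f : ℕ → ℂ) : (cr f)⁻¹ = cr (fun j => (f j)⁻¹) := rfl

theorem val_lt_iff {f : ℕ → ℂ} : (OO L hL).valuation (cr f) < 1 ↔
    ∃ ε > 0, ∀ᶠ j in (hyperfilter ℕ : Filter ℕ), ‖f j‖ ≤ Real.exp (-(ε * L j)) := by
  by_cases h0 : cr f = 0
  · rw [h0, map_zero]
    refine ⟨fun _ => ⟨1, one_pos, ?_⟩, fun _ => zero_lt_one⟩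
    filter_upwards [cr_eq_zero.1 h0] with j hj
    rw [hj, norm_zero]
    exact (Real.exp_pos _).le
  have h1 : (OO L hL).valuation (cr f) < 1 ↔ (cr f)⁻¹ ∉ OO L hL := by
    have h2 : (OO L hL).valuation (cr f) ≠ 0 := (Valuation.ne_zero_iff _).2 h0
    rw [← (OO L hL).valuation_le_one_iff, map_inv₀, not_le,
      one_lt_inv₀ (zero_lt_iff.2 h2)]
  have hne : ∀ᶠ j in (hyperfilter ℕ : Filter ℕ), f j ≠ 0 := by
    apply not_eventually
    intro h
    exact h0 (cr_eq_zero.2 h)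
  rw [h1, cr_inv, mem_OO]
  constructor
  · intro h
    push Not at h
    obtain ⟨ε, hε, h⟩ := h
    refine ⟨ε, hε, ?_⟩
    filter_upwards [h, hne] with j hj hj0
    rw [norm_inv] at hj
    rw [Real.exp_neg]
    exact (le_inv_comm₀ (norm_pos_iff.2 hj0) (Real.exp_pos _)).2 hj.le
  · rintro ⟨ε, hε, h⟩ hcon
    obtain ⟨j, hj1, hj2, hj3, hj0⟩ := exists_of_eventually (h.and ((hcon (ε / 2) (by
      positivity)).and ((eventually_of_atTop (hL.eventually_ge_atTop 1)).and hne)))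
    rw [norm_inv] at hj2
    have h2 : Real.exp (ε * L j) ≤ ‖f j‖⁻¹ := by
      rw [Real.exp_neg] at hj1
      exact (le_inv_comm₀ (Real.exp_pos _) (norm_pos_iff.2 hj0)).2 hj1
    have h3 := Real.exp_le_exp.1 (h2.trans hj2)
    nlinarith

/-- **retractions**: a ring homomorphism from the valuation ring to `K`, the identity on `ℂ`, which
moves elements by small ones -/
theorem exists_retraction (L : ℕ → ℝ) (hL : Tendsto L atTop atTop) :
    ∃ π : OO L hL →+* KK, (∀ c : ℂ, ∀ h : cr (fun _ => c) ∈ OO L hL,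
      π ⟨cr (fun _ => c), h⟩ = cr (fun _ => c)) ∧
      (∀ a : OO L hL, (OO L hL).valuation ((a : KK) - π a) < 1) ∧
      (∀ a : OO L hL, (OO L hL).valuation (a : KK) < 1 → π a = 0) ∧
      ∀ a : OO L hL, π a ∈ OO L hL := by
  set A := OO L hL with hA
  set cc : ℂ →+* KK := cr.comp (Pi.constRingHom ℕ ℂ) with hcc
  obtain ⟨k₀, hk₀, hkA, hsurj⟩ := Coef.exists_coefficient_field A cc.fieldRange (by
    rintro _ ⟨c, rfl⟩
    exact mem_OO_of_bdd (C := ‖c‖) fun j => le_rfl)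
  have huniq : ∀ b ∈ k₀, A.valuation b < 1 → b = 0 := by
    intro b hb h
    by_contra hb0
    have h1 := (A.valuation_le_one_iff b⁻¹).2 (hkA _ (k₀.inv_mem hb))
    rw [map_inv₀] at h1
    have h2 : A.valuation b ≠ 0 := (Valuation.ne_zero_iff _).2 hb0
    exact absurd h (not_lt.2 ((inv_le_one₀ (zero_lt_iff.2 h2)).1 h1))
  choose ρ hρ1 hρ2 using fun a : A => hsurj a a.2
  have heq : ∀ (a : A) (b : KK), b ∈ k₀ → A.valuation ((a : KK) - b) < 1 → ρ a = b := by
    intro a b hb h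
    have h1 : A.valuation (ρ a - b) < 1 := by
      have : ρ a - b = ((a : KK) - b) - ((a : KK) - ρ a) := by ring
      rw [this]
      exact (A.valuation.map_sub _ _).trans_lt (max_lt h (hρ2 a))
    exact sub_eq_zero.1 (huniq _ (k₀.sub_mem (hρ1 a) hb) h1)
  refine ⟨{ toFun := ρ
            map_one' := heq 1 1 k₀.one_mem (by
              change A.valuation ((1 : KK) - 1) < 1
              rw [sub_self, map_zero]
              exact zero_lt_one)
            map_zero' := heq 0 0 k₀.zero_mem (by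
              change A.valuation ((0 : KK) - 0) < 1
              rw [sub_self, map_zero]
              exact zero_lt_one)
            map_add' := fun a b => heq (a + b) (ρ a + ρ b) (k₀.add_mem (hρ1 a) (hρ1 b)) (by
              have : ((a + b : A) : KK) - (ρ a + ρ b) = ((a : KK) - ρ a) + ((b : KK) - ρ b) := by
                push_cast
                ring
              rw [this]
              exact (A.valuation.map_add _ _).trans_lt (max_lt (hρ2 a) (hρ2 b)))
            map_mul' := fun a b => heq (a * b) (ρ a * ρ b) (k₀.mul_mem (hρ1 a) (hρ1 b)) (by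
              have : ((a * b : A) : KK) - (ρ a * ρ b) =
                  (a : KK) * ((b : KK) - ρ b) + ρ b * ((a : KK) - ρ a) := by
                push_cast
                ring
              rw [this]
              refine (A.valuation.map_add _ _).trans_lt (max_lt ?_ ?_)
              · rw [map_mul]
                exact mul_lt_one_of_nonneg_of_lt_one_right (A.valuation_le_one a) zero_le
                  (hρ2 b)
              · rw [map_mul]
                exact mul_lt_one_of_nonneg_of_lt_one_right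
                  ((A.valuation_le_one_iff _).2 (hkA _ (hρ1 b))) zero_le (hρ2 a)) }, ?_, ?_, ?_,
    ?_⟩
  · intro c h
    refine heq ⟨cr (fun _ => c), h⟩ (cr fun _ => c) (hk₀ ⟨c, rfl⟩) ?_
    rw [sub_self, map_zero]
    exact zero_lt_one
  · exact hρ2
  · intro a ha
    exact heq a 0 k₀.zero_mem (by rwa [sub_zero])
  · intro a
    exact hkA _ (hρ1 a)

end Ultra

end Pool.Agent.KRFN

end

section

/-!
# Fibres of algebraic correspondences which contain all nearby fibres (helper2)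

`Γ` is an algebraic set of pairs `(x, y)`, invariant under multiplication of `x` and of `y` by
positive numbers.  Every `y` is close to a `y'` such that the fibres of all points near `y'` are near
the fibre of `y'`, with uniform exponents.
-/

open Polynomial Filter Topology

namespace Pool.Agent.KRFN

namespace Loj

open Ultra

variable {σ τ : Type} [Fintype σ] [Fintype τ]

theorem exp_lt_one {x : ℝ} (h : x < 0) : Real.exp x < 1 := by
  rw [← Real.exp_zero]
  exact Real.exp_lt_exp.2 h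

/-- the zeros of the polynomials in `S` -/
def Gam (S : Finset (MvPolynomial (σ ⊕ τ) ℂ)) (x : σ → ℂ) (y : τ → ℂ) : Prop :=
  ∀ P ∈ S, MvPolynomial.eval (Sum.elim x y) P = 0

noncomputable def cc : ℂ →+* KK := cr.comp (Pi.constRingHom ℕ ℂ)

theorem cr_eval {ι : Type} (P : MvPolynomial ι ℂ) (F : ι → ℕ → ℂ) :
    P.eval₂ cc (fun i => cr (F i)) = cr (fun n => MvPolynomial.eval (fun i => F i n) P) := by
  have h1 := MvPolynomial.hom_eval₂ P (Pi.constRingHom ℕ ℂ) cr F
  have h2 : (fun n => MvPolynomial.eval (fun i => F i n) P) = P.eval₂ (Pi.constRingHom ℕ ℂ) F := by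
    funext n
    have h3 := MvPolynomial.hom_eval₂ P (Pi.constRingHom ℕ ℂ) (Pi.evalRingHom (fun _ => ℂ) n) F
    change MvPolynomial.eval (fun i => F i n) P =
      Pi.evalRingHom (fun _ => ℂ) n (P.eval₂ (Pi.constRingHom ℕ ℂ) F)
    rw [h3]
    rfl
  rw [h2, h1]
  rfl

section

variable {L : ℕ → ℝ} {hL : Tendsto L atTop atTop}

theorem small_of_val {ι : Type} [Finite ι] {F : ι → ℕ → ℂ}
    (h : ∀ i, (OO L hL).valuation (cr (F i)) < 1) : ∃ ε > 0,
    ∀ᶠ n in (hyperfilter ℕ : Filter ℕ), ∀ i, ‖F i n‖ ≤ Real.exp (-(ε * L n)) := by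
  have := Fintype.ofFinite ι
  choose ε hε h2 using fun i => val_lt_iff.1 (h i)
  obtain ⟨e, he0, he⟩ : ∃ e > 0, ∀ i, e ≤ ε i := by
    rcases isEmpty_or_nonempty ι with hι | hι
    · exact ⟨1, one_pos, fun i => (hι.false i).elim⟩
    · obtain ⟨i₀, hi₀⟩ := Finite.exists_min ε
      exact ⟨ε i₀, hε i₀, hi₀⟩
  refine ⟨e, he0, ?_⟩
  have h3 : ∀ᶠ n in (hyperfilter ℕ : Filter ℕ), ∀ i, ‖F i n‖ ≤ Real.exp (-(ε i * L n)) :=
    eventually_all.2 h2
  filter_upwards [h3, eventually_of_atTop (hL.eventually_ge_atTop 0)] with n hn hLn i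
  refine (hn i).trans (Real.exp_le_exp.2 (neg_le_neg ?_))
  exact mul_le_mul_of_nonneg_right (he i) hLn

theorem norm_le_of_pi {ι : Type} [Fintype ι] {v : ι → ℂ} {c : ℝ} (hc : 0 ≤ c)
    (h : ∀ i, ‖v i‖ ≤ c) : ‖v‖ ≤ c := (pi_norm_le_iff_of_nonneg hc).2 h

/-- normalization -/
theorem normalize {ι : Type} [Fintype ι] {x ξ : ι → ℂ} {δ : ℝ} (hx : ‖x‖ = 1)
    (h : ‖x - ξ‖ ≤ δ) (hδ : δ < 1) : 0 < ‖ξ‖ ∧ ‖(‖ξ‖⁻¹ : ℝ) • ξ‖ = 1 ∧
      ‖x - (‖ξ‖⁻¹ : ℝ) • ξ‖ ≤ 2 * δ := by
  have h1 : |‖x‖ - ‖ξ‖| ≤ δ := (abs_norm_sub_norm_le x ξ).trans h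
  rw [hx] at h1
  have h2 : 0 < ‖ξ‖ := by
    have := (abs_le.1 h1).2
    linarith
  refine ⟨h2, ?_, ?_⟩
  · rw [norm_smul, norm_inv, norm_norm, inv_mul_cancel₀ h2.ne']
  · have h3 : ‖ξ - (‖ξ‖⁻¹ : ℝ) • ξ‖ ≤ δ := by
      have h4 : ξ - (‖ξ‖⁻¹ : ℝ) • ξ = (1 - ‖ξ‖⁻¹ : ℝ) • ξ := by rw [sub_smul, one_smul]
      rw [h4, norm_smul, Real.norm_eq_abs]
      have h5 : |1 - ‖ξ‖⁻¹| * ‖ξ‖ = |‖ξ‖ - 1| := by
        rw [← abs_of_pos h2, ← abs_mul, abs_of_pos h2, sub_mul, one_mul,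
          inv_mul_cancel₀ h2.ne']
      rw [h5, abs_sub_comm]
      exact h1
    calc ‖x - (‖ξ‖⁻¹ : ℝ) • ξ‖ = ‖(x - ξ) + (ξ - (‖ξ‖⁻¹ : ℝ) • ξ)‖ := by congr 1; abel
      _ ≤ δ + δ := (norm_add_le _ _).trans (add_le_add h h3)
      _ = 2 * δ := by ring

omit [Fintype σ] [Fintype τ] in
/-- the retraction of a sequence of points -/
theorem retract {S : Finset (MvPolynomial (σ ⊕ τ) ℂ)} (π : OO L hL →+* KK)
    (hπ1 : ∀ c : ℂ, ∀ h : cr (fun _ => c) ∈ OO L hL,
      π ⟨cr (fun _ => c), h⟩ = cr (fun _ => c))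
    {x : ℕ → σ → ℂ} {y : ℕ → τ → ℂ} (hx : ∀ i, cr (fun n => x n i) ∈ OO L hL)
    (hy : ∀ j, cr (fun n => y n j) ∈ OO L hL) (hxy : ∀ n, Gam S (x n) (y n))
    {ξ : ℕ → σ → ℂ} {η : ℕ → τ → ℂ} (hξ : ∀ i, cr (fun n => ξ n i) = π ⟨_, hx i⟩)
    (hη : ∀ j, cr (fun n => η n j) = π ⟨_, hy j⟩) :
    ∀ᶠ n in (hyperfilter ℕ : Filter ℕ), Gam S (ξ n) (η n) := by
  unfold Gam
  rw [Filter.eventually_all_finset]
  intro P hP
  rw [← cr_eq_zero (f := fun n => MvPolynomial.eval (Sum.elim (ξ n) (η n)) P)]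
  -- the polynomial in the valuation ring
  have hcc : ∀ c : ℂ, cc c ∈ OO L hL := fun c =>
    mem_OO_of_bdd (C := ‖c‖) fun j => le_rfl
  set c' : ℂ →+* OO L hL := cc.codRestrict (OO L hL) hcc with hc'
  set V : σ ⊕ τ → OO L hL := Sum.elim (fun i => ⟨_, hx i⟩) (fun j => ⟨_, hy j⟩) with hV
  have h1 : ((P.eval₂ c' V : OO L hL) : KK) = 0 := by
    have h2 := MvPolynomial.hom_eval₂ P c' (OO L hL).subtype V
    have h3 : ((OO L hL).subtype).comp c' = cc := rfl
    rw [h3] at h2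
    change (OO L hL).subtype (P.eval₂ c' V) = 0
    rw [h2]
    have h4 : (fun i => (OO L hL).subtype (V i)) =
        fun i => cr ((Sum.elim (fun i n => x n i) (fun j n => y n j) : σ ⊕ τ → ℕ → ℂ) i) := by
      funext i
      rcases i with i | j <;> rfl
    rw [h4, cr_eval, cr_eq_zero]
    refine Eventually.of_forall fun n => ?_
    have h5 : (fun i => (Sum.elim (fun i n => x n i) (fun j n => y n j) : σ ⊕ τ → ℕ → ℂ) i n) =
        Sum.elim (x n) (y n) := by
      funext i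
      rcases i with i | j <;> rfl
    rw [h5]
    exact hxy n P hP
  have h1' : P.eval₂ c' V = 0 := Subtype.ext h1
  have h6 := MvPolynomial.hom_eval₂ P c' π V
  rw [h1', map_zero] at h6
  have h7 : π.comp c' = cc := by
    ext c
    exact hπ1 c (hcc c)
  have h8 : (fun i => π (V i)) =
      fun i => cr ((Sum.elim (fun i n => ξ n i) (fun j n => η n j) : σ ⊕ τ → ℕ → ℂ) i) := by
    funext i
    rcases i with i | j
    · exact (hξ i).symm
    · exact (hη j).symm
  rw [h7, h8, cr_eval] at h6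
  refine Eq.trans ?_ h6.symm
  congr 1
  funext n
  congr 2
  funext i
  rcases i with i | j <;> rfl

end

theorem mem_of_norm {ι : Type} [Fintype ι] {L : ℕ → ℝ} {hL : Tendsto L atTop atTop}
    {x : ℕ → ι → ℂ} (h : ∀ n, ‖x n‖ = 1) (i : ι) : cr (fun n => x n i) ∈ OO L hL :=
  mem_OO_of_bdd (C := 1) fun n => by
    rw [← h n]
    exact norm_le_pi_norm (x n) i

/-- **the fibres of points near `y'` are near the fibre of `y'`** -/
theorem loj (S : Finset (MvPolynomial (σ ⊕ τ) ℂ))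
    (hS : ∀ x y, Gam S x y → ∀ a b : ℝ, 0 < a → 0 < b → Gam S (a • x) (b • y)) :
    ∃ a : ℝ, 0 < a ∧ a ≤ 1 ∧ ∀ x y, Gam S x y → ‖x‖ = 1 → ‖y‖ = 1 → ∀ L : ℝ, 1 / a ≤ L →
      ∃ L₂, a * L ≤ L₂ ∧ L₂ ≤ L ∧ ∃ x' y', Gam S x' y' ∧ ‖x'‖ = 1 ∧ ‖y'‖ = 1 ∧
        ‖y - y'‖ ≤ Real.exp (-(2 * L₂)) ∧ ∀ x'' y'', Gam S x'' y'' → ‖x''‖ = 1 → ‖y''‖ = 1 →
          ‖y'' - y'‖ ≤ 4 * Real.exp (-L₂) → ∃ z, Gam S z y' ∧ ‖z‖ = 1 ∧
            ‖x'' - z‖ ≤ Real.exp (-(a * L₂)) := by
  by_contra hcon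
  have hneg : ∀ n : ℕ, ∃ x y, Gam S x y ∧ ‖x‖ = 1 ∧ ‖y‖ = 1 ∧ ∃ L : ℝ, (n + 1 : ℝ) ≤ L ∧
      ∀ L₂, 1 / (n + 1 : ℝ) * L ≤ L₂ → L₂ ≤ L → ∀ x' y', Gam S x' y' → ‖x'‖ = 1 → ‖y'‖ = 1 →
        ‖y - y'‖ ≤ Real.exp (-(2 * L₂)) → ∃ x'' y'', Gam S x'' y'' ∧ ‖x''‖ = 1 ∧ ‖y''‖ = 1 ∧
          ‖y'' - y'‖ ≤ 4 * Real.exp (-L₂) ∧ ∀ z, Gam S z y' → ‖z‖ = 1 →
            Real.exp (-(1 / (n + 1 : ℝ) * L₂)) < ‖x'' - z‖ := by
    intro n
    by_contra h
    push Not at h
    have hn : (0 : ℝ) < n + 1 := by positivity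
    refine hcon ⟨1 / (n + 1 : ℝ), by positivity, ?_, ?_⟩
    · rw [div_le_one hn]
      have : (0 : ℝ) ≤ n := Nat.cast_nonneg n
      linarith
    · intro x y hxy hx hy L hL
      rw [one_div_one_div] at hL
      obtain ⟨L₂, h1, h2, x', y', h3, h4, h5, h6, h7⟩ := h x y hxy hx hy L hL
      exact ⟨L₂, h1, h2, x', y', h3, h4, h5, h6, h7⟩
  choose x y hxy hx hy L hLn hmain using hneg
  have hL : Tendsto L atTop atTop := by
    refine tendsto_atTop_mono hLn ?_
    exact tendsto_atTop_add_const_right _ _ tendsto_natCast_atTop_atTop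
  obtain ⟨π, hπ1, hπ2, hπ3, -⟩ := exists_retraction L hL
  have hxO : ∀ i, cr (fun n => x n i) ∈ OO L hL := mem_of_norm hx
  have hyO : ∀ j, cr (fun n => y n j) ∈ OO L hL := mem_of_norm hy
  choose ξ' hξ using fun i => cr_surj (π ⟨_, hxO i⟩)
  choose η' hη using fun j => cr_surj (π ⟨_, hyO j⟩)
  set ξ : ℕ → σ → ℂ := fun n i => ξ' i n with hξdef
  set η : ℕ → τ → ℂ := fun n j => η' j n with hηdef
  have hG := retract π hπ1 hxO hyO hxy (ξ := ξ) (η := η) hξ hη
  obtain ⟨ε₁, hε₁, hs₁⟩ := small_of_val (hL := hL) (F := fun i n => x n i - ξ n i) (fun i => by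
    have := hπ2 ⟨_, hxO i⟩
    rw [← hξ i] at this
    exact this)
  obtain ⟨ε₂, hε₂, hs₂⟩ := small_of_val (hL := hL) (F := fun j n => y n j - η n j) (fun j => by
    have := hπ2 ⟨_, hyO j⟩
    rw [← hη j] at this
    exact this)
  set ε₀ := min 1 (ε₂ / 4) with hε₀
  have hε₀0 : 0 < ε₀ := lt_min one_pos (by positivity)
  have hε₀1 : ε₀ ≤ 1 := min_le_left _ _
  have hε₀2 : ε₀ ≤ ε₂ / 4 := min_le_right _ _
  -- the normalized points
  set x' : ℕ → σ → ℂ := fun n => (‖ξ n‖⁻¹ : ℝ) • ξ n with hx'def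
  set y' : ℕ → τ → ℂ := fun n => (‖η n‖⁻¹ : ℝ) • η n with hy'def
  have hgood : ∀ᶠ n : ℕ in (hyperfilter ℕ : Filter ℕ), (1 / (n + 1 : ℝ) ≤ ε₀ ∧ 0 < ‖η n‖ ∧
      Gam S (x' n) (y' n) ∧ ‖x' n‖ = 1 ∧ ‖y' n‖ = 1 ∧ ‖y n - y' n‖ ≤ Real.exp (-(2 * (ε₀ * L n)))) := by
    have hb1 : ∀ᶠ n : ℕ in (atTop : Filter ℕ), 1 / (n + 1 : ℝ) ≤ ε₀ := by
      have := tendsto_one_div_add_atTop_nhds_zero_nat (𝕜 := ℝ)
      exact (this.eventually (gt_mem_nhds hε₀0)).mono fun n hn => hn.le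
    filter_upwards [hG, hs₁, hs₂, eventually_of_atTop (hL.eventually_ge_atTop (1 / ε₁)),
      eventually_of_atTop (hL.eventually_ge_atTop (2 / ε₂)), eventually_of_atTop hb1] with n h1 h2
        h3 h4 h5 h6
    have a1 : ‖x n - ξ n‖ ≤ Real.exp (-(ε₁ * L n)) := norm_le_of_pi (Real.exp_pos _).le h2
    have a2 : ‖y n - η n‖ ≤ Real.exp (-(ε₂ * L n)) := norm_le_of_pi (Real.exp_pos _).le h3
    have b1 : 1 ≤ ε₁ * L n := by
      calc (1 : ℝ) = ε₁ * (1 / ε₁) := by field_simp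
        _ ≤ ε₁ * L n := mul_le_mul_of_nonneg_left h4 hε₁.le
    have b2 : 2 ≤ ε₂ * L n := by
      calc (2 : ℝ) = ε₂ * (2 / ε₂) := by field_simp
        _ ≤ ε₂ * L n := mul_le_mul_of_nonneg_left h5 hε₂.le
    have c1 : Real.exp (-(ε₁ * L n)) < 1 := exp_lt_one (by linarith)
    have c2 : Real.exp (-(ε₂ * L n)) < 1 := exp_lt_one (by linarith)
    obtain ⟨d1, d2, -⟩ := normalize (hx n) a1 c1
    obtain ⟨d3, d4, d5⟩ := normalize (hy n) a2 c2
    refine ⟨h6, d3, hS _ _ h1 _ _ (inv_pos.2 d1) (inv_pos.2 d3), d2, d4, d5.trans ?_⟩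
    have e1 : (2 : ℝ) ≤ Real.exp (ε₂ / 2 * L n) := by
      have := Real.add_one_le_exp (ε₂ / 2 * L n)
      linarith
    calc 2 * Real.exp (-(ε₂ * L n)) ≤ Real.exp (ε₂ / 2 * L n) * Real.exp (-(ε₂ * L n)) :=
          mul_le_mul_of_nonneg_right e1 (Real.exp_pos _).le
      _ = Real.exp (-(ε₂ / 2 * L n)) := by
          rw [← Real.exp_add]
          congr 1
          ring
      _ ≤ Real.exp (-(2 * (ε₀ * L n))) := by
          apply Real.exp_le_exp.2
          have hL0 : 0 ≤ L n := (by positivity : (0 : ℝ) ≤ n + 1).trans (hLn n)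
          have := mul_le_mul_of_nonneg_right hε₀2 hL0
          linarith
  -- the far points
  have hfar : ∀ n : ℕ, ∃ x'' y'', Gam S x'' y'' ∧ ‖x''‖ = 1 ∧ ‖y''‖ = 1 ∧
      ((1 / (n + 1 : ℝ) ≤ ε₀ ∧ 0 < ‖η n‖ ∧
        Gam S (x' n) (y' n) ∧ ‖x' n‖ = 1 ∧ ‖y' n‖ = 1 ∧
        ‖y n - y' n‖ ≤ Real.exp (-(2 * (ε₀ * L n)))) →
        ‖y'' - y' n‖ ≤ 4 * Real.exp (-(ε₀ * L n)) ∧ ∀ z, Gam S z (y' n) → ‖z‖ = 1 →
          Real.exp (-(1 / (n + 1 : ℝ) * (ε₀ * L n))) < ‖x'' - z‖) := by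
    intro n
    by_cases hg : 1 / (n + 1 : ℝ) ≤ ε₀ ∧ 0 < ‖η n‖ ∧
        Gam S (x' n) (y' n) ∧ ‖x' n‖ = 1 ∧ ‖y' n‖ = 1 ∧
        ‖y n - y' n‖ ≤ Real.exp (-(2 * (ε₀ * L n)))
    · obtain ⟨g1, g0, g2, g3, g4, g5⟩ := hg
      have hL0 : 0 ≤ L n := (by positivity : (0 : ℝ) ≤ n + 1).trans (hLn n)
      obtain ⟨x'', y'', k1, k2, k3, k4, k5⟩ := hmain n (ε₀ * L n)
        (mul_le_mul_of_nonneg_right g1 hL0) (by nlinarith) (x' n) (y' n) g2 g3 g4 g5
      exact ⟨x'', y'', k1, k2, k3, fun _ => ⟨k4, k5⟩⟩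
    · exact ⟨x n, y n, hxy n, hx n, hy n, fun h => absurd h hg⟩
  choose x'' y'' hxy'' hx'' hy'' hfar using hfar
  have hx''O : ∀ i, cr (fun n => x'' n i) ∈ OO L hL := mem_of_norm hx''
  have hy''O : ∀ j, cr (fun n => y'' n j) ∈ OO L hL := mem_of_norm hy''
  have hyy : ∀ j, π ⟨_, hy''O j⟩ = π ⟨_, hyO j⟩ := by
    intro j
    have h1 : (OO L hL).valuation (cr (fun n => y'' n j - y n j)) < 1 := by
      rw [val_lt_iff]
      refine ⟨ε₀ / 2, by positivity, ?_⟩
      filter_upwards [hgood, eventually_of_atTop (hL.eventually_ge_atTop (8 / ε₀))] with n h1 h2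
      obtain ⟨-, -, -, -, -, h3⟩ := id h1
      obtain ⟨h4, -⟩ := hfar n h1
      have hL0 : 0 ≤ L n := (by positivity : (0 : ℝ) ≤ n + 1).trans (hLn n)
      have h3' : ‖y n - y' n‖ ≤ Real.exp (-(ε₀ * L n)) := h3.trans (Real.exp_le_exp.2 (by
        have : 0 ≤ ε₀ * L n := by positivity
        linarith))
      have h5 : ‖y'' n j - y n j‖ ≤ 5 * Real.exp (-(ε₀ * L n)) := by
        have e1 : ‖y'' n - y n‖ ≤ 5 * Real.exp (-(ε₀ * L n)) := by
          calc ‖y'' n - y n‖ = ‖(y'' n - y' n) - (y n - y' n)‖ := by congr 1; abel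
            _ ≤ ‖y'' n - y' n‖ + ‖y n - y' n‖ := norm_sub_le _ _
            _ ≤ _ := by linarith
        exact (norm_le_pi_norm (y'' n - y n) j).trans e1
      have h6 : 8 ≤ ε₀ * L n := by
        calc (8 : ℝ) = ε₀ * (8 / ε₀) := by field_simp
          _ ≤ ε₀ * L n := mul_le_mul_of_nonneg_left h2 hε₀0.le
      have h7 : (5 : ℝ) ≤ Real.exp (ε₀ / 2 * L n) := by
        have := Real.add_one_le_exp (ε₀ / 2 * L n)
        linarith
      calc ‖y'' n j - y n j‖ ≤ 5 * Real.exp (-(ε₀ * L n)) := h5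
        _ ≤ Real.exp (ε₀ / 2 * L n) * Real.exp (-(ε₀ * L n)) :=
            mul_le_mul_of_nonneg_right h7 (Real.exp_pos _).le
        _ = Real.exp (-(ε₀ / 2 * L n)) := by
            rw [← Real.exp_add]
            congr 1
            ring
    have h2 : π (⟨_, hy''O j⟩ - ⟨_, hyO j⟩) = 0 := hπ3 _ h1
    rw [map_sub] at h2
    exact sub_eq_zero.1 h2
  choose ζ' hζ using fun i => cr_surj (π ⟨_, hx''O i⟩)
  set ζ : ℕ → σ → ℂ := fun n i => ζ' i n with hζdef
  have hG2 := retract π hπ1 hx''O hy''O hxy'' (ξ := ζ) (η := η) hζ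
    (fun j => (hη j).trans (hyy j).symm)
  obtain ⟨ε₃, hε₃, hs₃⟩ := small_of_val (hL := hL) (F := fun i n => x'' n i - ζ n i) (fun i => by
    have := hπ2 ⟨_, hx''O i⟩
    rw [← hζ i] at this
    exact this)
  have hb2 : ∀ᶠ n : ℕ in (atTop : Filter ℕ), 1 / (n + 1 : ℝ) ≤ ε₃ / 2 := by
    have := tendsto_one_div_add_atTop_nhds_zero_nat (𝕜 := ℝ)
    exact (this.eventually (gt_mem_nhds (by positivity : 0 < ε₃ / 2))).mono fun n hn => hn.le
  obtain ⟨n, g1, g2, g3, g4, g5⟩ := exists_of_eventually (hgood.and (hG2.and (hs₃.and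
    ((eventually_of_atTop (hL.eventually_ge_atTop (2 / ε₃))).and (eventually_of_atTop hb2)))))
  have hL0 : 0 ≤ L n := (by positivity : (0 : ℝ) ≤ n + 1).trans (hLn n)
  have a1 : ‖x'' n - ζ n‖ ≤ Real.exp (-(ε₃ * L n)) := norm_le_of_pi (Real.exp_pos _).le g3
  have b1 : 2 ≤ ε₃ * L n := by
    calc (2 : ℝ) = ε₃ * (2 / ε₃) := by field_simp
      _ ≤ ε₃ * L n := mul_le_mul_of_nonneg_left g4 hε₃.le
  obtain ⟨d1, d2, d3⟩ := normalize (hx'' n) a1 (exp_lt_one (by linarith))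
  obtain ⟨-, k2⟩ := hfar n g1
  have k3 := k2 ((‖ζ n‖⁻¹ : ℝ) • ζ n) (hS _ _ g2 _ _ (inv_pos.2 d1) (inv_pos.2 g1.2.1)) d2
  have e1 : (2 : ℝ) ≤ Real.exp (ε₃ / 2 * L n) := by
    have := Real.add_one_le_exp (ε₃ / 2 * L n)
    linarith
  have e2 : 2 * Real.exp (-(ε₃ * L n)) ≤ Real.exp (-(ε₃ / 2 * L n)) := by
    calc 2 * Real.exp (-(ε₃ * L n)) ≤ Real.exp (ε₃ / 2 * L n) * Real.exp (-(ε₃ * L n)) :=
          mul_le_mul_of_nonneg_right e1 (Real.exp_pos _).le
      _ = Real.exp (-(ε₃ / 2 * L n)) := by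
          rw [← Real.exp_add]
          congr 1
          ring
  have e3 : Real.exp (-(ε₃ / 2 * L n)) ≤ Real.exp (-(1 / (n + 1 : ℝ) * (ε₀ * L n))) := by
    apply Real.exp_le_exp.2
    have f1 : 1 / (n + 1 : ℝ) * (ε₀ * L n) ≤ ε₃ / 2 * (1 * L n) :=
      mul_le_mul g5 (mul_le_mul_of_nonneg_right hε₀1 hL0) (by positivity) (by positivity)
    linarith
  exact absurd (k3.trans_le (d3.trans (e2.trans e3))) (lt_irrefl _)

/-- **Lojasiewicz inequality for the fibre product of an algebraic correspondence with itself** -/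
theorem loj_pair (S : Finset (MvPolynomial (σ ⊕ τ) ℂ))
    (hS : ∀ x y, Gam S x y → ∀ a b : ℝ, 0 < a → 0 < b → Gam S (a • x) (b • y)) :
    ∃ Λ : ℝ, 1 ≤ Λ ∧ ∀ l : ℝ, 1 ≤ l → ∀ x y x' y', Gam S x y → Gam S x' y' → ‖x‖ = 1 →
      ‖y‖ = 1 → ‖x'‖ = 1 → ‖y'‖ = 1 → ‖y - y'‖ ≤ Real.exp (-(Λ * l)) →
      ∃ z z' w, Gam S z w ∧ Gam S z' w ∧ ‖z‖ = 1 ∧ ‖z'‖ = 1 ∧ ‖w‖ = 1 ∧
        ‖x - z‖ ≤ Real.exp (-l) ∧ ‖x' - z'‖ ≤ Real.exp (-l) := by
  by_contra hcon
  have hneg : ∀ n : ℕ, ∃ l : ℝ, 1 ≤ l ∧ ∃ x y x' y', Gam S x y ∧ Gam S x' y' ∧ ‖x‖ = 1 ∧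
      ‖y‖ = 1 ∧ ‖x'‖ = 1 ∧ ‖y'‖ = 1 ∧ ‖y - y'‖ ≤ Real.exp (-((n + 1 : ℝ) * l)) ∧
      ∀ z z' w, Gam S z w → Gam S z' w → ‖z‖ = 1 → ‖z'‖ = 1 → ‖w‖ = 1 →
        ‖x - z‖ ≤ Real.exp (-l) → Real.exp (-l) < ‖x' - z'‖ := by
    intro n
    by_contra h
    push Not at h
    refine hcon ⟨(n + 1 : ℝ), ?_, ?_⟩
    · have : (0 : ℝ) ≤ n := Nat.cast_nonneg n
      linarith
    · intro l hl x y x' y' h1 h2 h3 h4 h5 h6 h7
      exact h l hl x y x' y' h1 h2 h3 h4 h5 h6 h7
  choose l hl x y x' y' hxy hxy' hx hy hx' hy' hyy hmain using hneg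
  set L : ℕ → ℝ := fun n => (n + 1 : ℝ) * l n with hLdef
  have hL : Tendsto L atTop atTop := by
    refine tendsto_atTop_mono (f := fun n : ℕ => (n : ℝ)) ?_ tendsto_natCast_atTop_atTop
    intro n
    have h1 := hl n
    have h2 : (0 : ℝ) ≤ n := Nat.cast_nonneg n
    rw [hLdef]
    nlinarith
  obtain ⟨π, hπ1, hπ2, hπ3, -⟩ := exists_retraction L hL
  have hxO : ∀ i, cr (fun n => x n i) ∈ OO L hL := mem_of_norm hx
  have hyO : ∀ j, cr (fun n => y n j) ∈ OO L hL := mem_of_norm hy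
  have hxO' : ∀ i, cr (fun n => x' n i) ∈ OO L hL := mem_of_norm hx'
  have hyO' : ∀ j, cr (fun n => y' n j) ∈ OO L hL := mem_of_norm hy'
  have hyeq : ∀ j, π ⟨_, hyO' j⟩ = π ⟨_, hyO j⟩ := by
    intro j
    have h1 : (OO L hL).valuation (cr (fun n => y' n j - y n j)) < 1 := by
      rw [val_lt_iff]
      refine ⟨1, one_pos, Eventually.of_forall fun n => ?_⟩
      rw [one_mul]
      have h2 := norm_le_pi_norm (y' n - y n) j
      rw [norm_sub_rev] at h2
      exact h2.trans (hyy n)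
    have h2 : π (⟨_, hyO' j⟩ - ⟨_, hyO j⟩) = 0 := hπ3 _ h1
    rw [map_sub] at h2
    exact sub_eq_zero.1 h2
  choose ξ₁ hξ using fun i => cr_surj (π ⟨_, hxO i⟩)
  choose ξ₂ hξ' using fun i => cr_surj (π ⟨_, hxO' i⟩)
  choose η₁ hη using fun j => cr_surj (π ⟨_, hyO j⟩)
  set ξ : ℕ → σ → ℂ := fun n i => ξ₁ i n with hξdef
  set ξ' : ℕ → σ → ℂ := fun n i => ξ₂ i n with hξdef'
  set η : ℕ → τ → ℂ := fun n j => η₁ j n with hηdef
  have hG := retract π hπ1 hxO hyO hxy (ξ := ξ) (η := η) hξ hη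
  have hG' := retract π hπ1 hxO' hyO' hxy' (ξ := ξ') (η := η) hξ'
    (fun j => (hη j).trans (hyeq j).symm)
  obtain ⟨ε₁, hε₁, hs₁⟩ := small_of_val (hL := hL) (F := fun i n => x n i - ξ n i) (fun i => by
    have := hπ2 ⟨_, hxO i⟩
    rw [← hξ i] at this
    exact this)
  obtain ⟨ε₂, hε₂, hs₂⟩ := small_of_val (hL := hL) (F := fun i n => x' n i - ξ' n i) (fun i => by
    have := hπ2 ⟨_, hxO' i⟩
    rw [← hξ' i] at this
    exact this)
  obtain ⟨ε₃, hε₃, hs₃⟩ := small_of_val (hL := hL) (F := fun j n => y n j - η n j) (fun j => by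
    have := hπ2 ⟨_, hyO j⟩
    rw [← hη j] at this
    exact this)
  have hbig : ∀ e : ℝ, 0 < e → ∀ᶠ n : ℕ in (hyperfilter ℕ : Filter ℕ),
      2 * Real.exp (-(e * L n)) ≤ Real.exp (-l n) ∧ Real.exp (-(e * L n)) < 1 := by
    intro e he
    have h1 : ∀ᶠ n : ℕ in (atTop : Filter ℕ), 2 / e ≤ (n : ℝ) :=
      tendsto_natCast_atTop_atTop.eventually_ge_atTop _
    filter_upwards [eventually_of_atTop h1] with n hn
    have h2 : 2 ≤ e * n := by
      calc (2 : ℝ) = e * (2 / e) := by field_simp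
        _ ≤ e * n := mul_le_mul_of_nonneg_left hn he.le
    have h3 := hl n
    have h4 : l n + 1 ≤ e * L n := by
      rw [hLdef]
      have : e * ((n + 1 : ℝ) * l n) = e * n * l n + e * l n := by ring
      simp only [this]
      nlinarith
    have h5 : (2 : ℝ) ≤ Real.exp 1 := by
      have := Real.add_one_le_exp (1 : ℝ)
      linarith
    constructor
    · calc 2 * Real.exp (-(e * L n)) ≤ Real.exp 1 * Real.exp (-(e * L n)) :=
            mul_le_mul_of_nonneg_right h5 (Real.exp_pos _).le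
        _ = Real.exp (1 + -(e * L n)) := (Real.exp_add _ _).symm
        _ ≤ Real.exp (-l n) := Real.exp_le_exp.2 (by linarith)
    · exact exp_lt_one (by linarith)
  obtain ⟨n, g1, g2, g3, g4, g5, g6, g7, g8⟩ := exists_of_eventually (hG.and (hG'.and (hs₁.and
    (hs₂.and (hs₃.and ((hbig ε₁ hε₁).and ((hbig ε₂ hε₂).and (hbig ε₃ hε₃))))))))
  have a1 : ‖x n - ξ n‖ ≤ Real.exp (-(ε₁ * L n)) := norm_le_of_pi (Real.exp_pos _).le g3
  have a2 : ‖x' n - ξ' n‖ ≤ Real.exp (-(ε₂ * L n)) := norm_le_of_pi (Real.exp_pos _).le g4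
  have a3 : ‖y n - η n‖ ≤ Real.exp (-(ε₃ * L n)) := norm_le_of_pi (Real.exp_pos _).le g5
  obtain ⟨b1, b2, b3⟩ := normalize (hx n) a1 g6.2
  obtain ⟨c1, c2, c3⟩ := normalize (hx' n) a2 g7.2
  obtain ⟨d1, d2, d3⟩ := normalize (hy n) a3 g8.2
  have := hmain n ((‖ξ n‖⁻¹ : ℝ) • ξ n) ((‖ξ' n‖⁻¹ : ℝ) • ξ' n) ((‖η n‖⁻¹ : ℝ) • η n)
    (hS _ _ g1 _ _ (inv_pos.2 b1) (inv_pos.2 d1)) (hS _ _ g2 _ _ (inv_pos.2 c1) (inv_pos.2 d1))
    b2 c2 d2 (b3.trans g6.1)
  exact absurd (this.trans_le (c3.trans g7.1)) (lt_irrefl _)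

end Loj

end Pool.Agent.KRFN

end

section

/-!
# Coverings of cones by tuples of algebraic functions
-/

open MvPolynomial

namespace Pool.Agent.KRFW

/-- the linear form with the coefficients `a` -/
noncomputable def lin {R : Type*} [CommRing R] {σ : Type} [Fintype σ] (a : σ → R) :
    MvPolynomial σ R := ∑ j, C (a j) * X j

/-- the indices of the variables `w`, `u`, `T` -/
abbrev Ix (k : ℕ) (σ : Type) : Type := Fin k ⊕ (σ ⊕ Unit)

/-- the values `w`, `u`, `T` of the variables -/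
def pt {K : Type*} {k : ℕ} {σ : Type} (w : Fin k → K) (u : σ → K) (T : K) : Ix k σ → K :=
  Sum.elim w (Sum.elim u fun _ => T)

/-- `X` is a tuple of points of `V` with the image `w` under the linear forms `ℓ`, and
`Φ (w, u, T) = ∏ (T - u · X m)`. -/
structure IsTup {K : Type*} [Field K] {k D : ℕ} {σ : Type} [Fintype σ] (V : Set (σ → K))
    (ℓ : Fin k → σ → K) (Φ : MvPolynomial (Ix k σ) K) (w : Fin k → K) (X : Fin D → σ → K) :
    Prop where
  mem : ∀ m, X m ∈ V
  proj : ∀ m i, ∑ j, ℓ i j * X m j = w i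
  prod : ∀ u T, eval (pt w u T) Φ = ∏ m, (T - ∑ j, u j * X m j)

/-- the ideal `I` is homogeneous -/
def IsHom {R : Type*} [CommRing R] {σ : Type} (I : Ideal (MvPolynomial σ R)) : Prop :=
  ∀ P ∈ I, ∀ n, homogeneousComponent n P ∈ I

/-- the zeros of the polynomials in `S` -/
def zeros {K : Type*} [Field K] {σ : Type} (S : Set (MvPolynomial σ K)) : Set (σ → K) :=
  {x | ∀ P ∈ S, eval x P = 0}

/-- the tuple `X s` depends holomorphically on `s` -/
def HolTup {D : ℕ} {σ : Type} [Fintype σ] (X : ℂ → Fin D → σ → ℂ) : Prop :=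
  ∀ (u : σ → ℂ) (T : ℂ), Differentiable ℂ fun s => ∏ m, (T - ∑ j, u j * X s m j)

end Pool.Agent.KRFW

end

section

/-!
# The covering of the cone of a homogeneous prime ideal (helper70)
-/

open MvPolynomial Filter Topology

namespace Pool.Agent.KRFW

namespace PrimeD

variable {K : Type*} [Field K] {σ : Type} [Fintype σ] {𝔭 : Ideal (MvPolynomial σ K)}

/-- the coordinate functions -/
noncomputable def xq (𝔭 : Ideal (MvPolynomial σ K)) (j : σ) : MvPolynomial σ K ⧸ 𝔭 :=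
  Ideal.Quotient.mk 𝔭 (X j)

/-- the linear forms in the coordinate ring -/
noncomputable def yq (𝔭 : Ideal (MvPolynomial σ K)) {k : ℕ} (ℓ : Fin k → σ → K) (i : Fin k) :
    MvPolynomial σ K ⧸ 𝔭 :=
  Ideal.Quotient.mk 𝔭 (lin (ℓ i))

omit [Fintype σ] in
theorem mkₐ_eq : Ideal.Quotient.mkₐ K 𝔭 = aeval (xq 𝔭) :=
  MvPolynomial.algHom_ext fun j => by
    rw [aeval_X]
    rfl

omit [Fintype σ] in
theorem adjoin_xq : Algebra.adjoin K (Set.range (xq 𝔭)) = ⊤ := by
  rw [Algebra.adjoin_range_eq_range_aeval, ← mkₐ_eq, AlgHom.range_eq_top]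
  exact Ideal.Quotient.mkₐ_surjective K 𝔭

omit [Fintype σ] in
/-- the values of a homomorphism to `K` -/
theorem apply_mk (ψ : MvPolynomial σ K ⧸ 𝔭 →ₐ[K] K) (P : MvPolynomial σ K) :
    ψ (Ideal.Quotient.mk 𝔭 P) = eval (fun j => ψ (xq 𝔭 j)) P := by
  have h1 : ψ.comp (Ideal.Quotient.mkₐ K 𝔭) = aeval fun j => ψ (xq 𝔭 j) :=
    MvPolynomial.algHom_ext fun j => by
      rw [aeval_X]
      rfl
  have h2 := congrArg (fun φ : MvPolynomial σ K →ₐ[K] K => φ P) h1
  simp only [AlgHom.comp_apply] at h2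
  exact h2

theorem apply_yq (ψ : MvPolynomial σ K ⧸ 𝔭 →ₐ[K] K) {k : ℕ} (ℓ : Fin k → σ → K) (i : Fin k) :
    ψ (yq 𝔭 ℓ i) = ∑ j, ℓ i j * ψ (xq 𝔭 j) := by
  rw [yq, apply_mk, lin]
  simp

omit [Fintype σ] in
theorem mem_zeros (ψ : MvPolynomial σ K ⧸ 𝔭 →ₐ[K] K) :
    (fun j => ψ (xq 𝔭 j)) ∈ zeros (𝔭 : Set (MvPolynomial σ K)) := by
  intro P hP
  rw [← apply_mk, Ideal.Quotient.eq_zero_iff_mem.2 hP, map_zero]

/-- the homomorphism of a zero -/
noncomputable def psi {x : σ → K} (hx : x ∈ zeros (𝔭 : Set (MvPolynomial σ K))) :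
    MvPolynomial σ K ⧸ 𝔭 →ₐ[K] K :=
  Ideal.Quotient.liftₐ 𝔭 (aeval x) fun P hP => hx P hP

omit [Fintype σ] in
theorem psi_xq {x : σ → K} (hx : x ∈ zeros (𝔭 : Set (MvPolynomial σ K))) (j : σ) :
    psi hx (xq 𝔭 j) = x j := by
  have h : psi hx (xq 𝔭 j) = aeval x (X j : MvPolynomial σ K) := rfl
  rw [h, aeval_X]

theorem psi_yq {x : σ → K} (hx : x ∈ zeros (𝔭 : Set (MvPolynomial σ K))) {k : ℕ}
    (ℓ : Fin k → σ → K) (i : Fin k) : psi hx (yq 𝔭 ℓ i) = ∑ j, ℓ i j * x j := by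
  rw [apply_yq]
  simp only [psi_xq]

theorem aeval_yq {k : ℕ} (ℓ : Fin k → σ → K) (G : MvPolynomial (Fin k) K) :
    aeval (yq 𝔭 ℓ) G = Ideal.Quotient.mk 𝔭 (aeval (fun i => lin (ℓ i)) G) := by
  have h1 : (aeval (yq 𝔭 ℓ) : MvPolynomial (Fin k) K →ₐ[K] MvPolynomial σ K ⧸ 𝔭) =
      (Ideal.Quotient.mkₐ K 𝔭).comp (aeval fun i => lin (ℓ i)) :=
    MvPolynomial.algHom_ext fun i => by
      rw [AlgHom.comp_apply, aeval_X, aeval_X]
      rfl
  rw [h1]
  rfl

/-- the homomorphism of `B` -/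
noncomputable abbrev hom (O : ValuationSubring K) {k : ℕ} (ℓ : Fin k → σ → O) :
    MvPolynomial (Fin k) O →+* MvPolynomial σ K :=
  eval₂Hom (C.comp O.subtype) fun i => lin fun j => (ℓ i j : K)

theorem eval_hom (O : ValuationSubring K) {k : ℕ} (ℓ : Fin k → σ → O) (x : σ → K)
    (P : MvPolynomial (Fin k) O) : eval x (hom O ℓ P) =
      eval₂ O.subtype (fun i => ∑ j, (ℓ i j : K) * x j) P := by
  have h1 : (eval x).comp (hom O ℓ) = eval₂Hom O.subtype fun i => ∑ j, (ℓ i j : K) * x j := by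
    refine MvPolynomial.ringHom_ext (fun a => ?_) fun i => ?_
    · simp
    · simp [lin]
  have h2 := congrArg (fun φ : MvPolynomial (Fin k) O →+* K => φ P) h1
  exact h2

theorem mk_hom (O : ValuationSubring K) {k : ℕ} (ℓ : Fin k → σ → O)
    (P : MvPolynomial (Fin k) O) : Ideal.Quotient.mk 𝔭 (hom O ℓ P) =
      aeval (yq 𝔭 fun i j => (ℓ i j : K)) (map O.subtype P) := by
  have h1 : (Ideal.Quotient.mk 𝔭).comp (hom O ℓ) =
      (aeval (yq 𝔭 fun i j => (ℓ i j : K)) : MvPolynomial (Fin k) K →ₐ[K] _).toRingHom.comp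
        (map O.subtype) := by
    refine MvPolynomial.ringHom_ext (fun a => ?_) fun i => ?_
    · simp only [RingHom.comp_apply, eval₂Hom_C, map_C, AlgHom.toRingHom_eq_coe, RingHom.coe_coe,
        aeval_C]
      rfl
    · simp only [RingHom.comp_apply, eval₂Hom_X', map_X, AlgHom.toRingHom_eq_coe, RingHom.coe_coe,
        aeval_X]
      rfl
  have h2 := congrArg (fun φ : MvPolynomial (Fin k) O →+* MvPolynomial σ K ⧸ 𝔭 => φ P) h1
  exact h2

/-- the coordinates are integral over the linear forms -/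
theorem integral_xq (O : ValuationSubring K) {k : ℕ} (ℓ : Fin k → σ → O) {j : σ}
    {q : Polynomial (MvPolynomial (Fin k) O)} (hq : q.Monic)
    (h : q.eval₂ (hom O ℓ) (X j) ∈ 𝔭) :
    (aeval (yq 𝔭 fun i j => (ℓ i j : K)) : MvPolynomial (Fin k) K →ₐ[K] _).toRingHom.IsIntegralElem
      (xq 𝔭 j) := by
  refine ⟨q.map (map O.subtype), hq.map _, ?_⟩
  rw [Polynomial.eval₂_map]
  have h1 : (aeval (yq 𝔭 fun i j => (ℓ i j : K)) : MvPolynomial (Fin k) K →ₐ[K] _).toRingHom.comp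
      (map O.subtype) = (Ideal.Quotient.mk 𝔭).comp (hom O ℓ) :=
    RingHom.ext fun P => (mk_hom O ℓ P).symm
  rw [h1, xq, ← Polynomial.hom_eval₂]
  exact Ideal.Quotient.eq_zero_iff_mem.2 h

/-- the coordinates of a zero are in `O` if the linear forms have values in `O` -/
theorem mem_of_forms (O : ValuationSubring K) {k : ℕ} (ℓ : Fin k → σ → O) {j : σ}
    {q : Polynomial (MvPolynomial (Fin k) O)} (hq : q.Monic)
    (h : q.eval₂ (hom O ℓ) (X j) ∈ 𝔭) {x : σ → K}
    (hx : x ∈ zeros (𝔭 : Set (MvPolynomial σ K)))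
    (hO : ∀ i, ∑ j, (ℓ i j : K) * x j ∈ O) : x j ∈ O := by
  set z : Fin k → O := fun i => ⟨_, hO i⟩ with hz
  have h1 : eval x (q.eval₂ (hom O ℓ) (X j)) = 0 := hx _ h
  rw [Polynomial.hom_eval₂] at h1
  have h2 : (eval x).comp (hom O ℓ) = O.subtype.comp (eval z) := by
    refine RingHom.ext fun P => ?_
    rw [RingHom.comp_apply, eval_hom, RingHom.comp_apply]
    have h3 := MvPolynomial.eval₂_comp_left O.subtype (RingHom.id O) z P
    rw [eval, coe_eval₂Hom, h3]
    rfl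
  rw [h2, eval_X] at h1
  have h4 : O.subtype.IsIntegralElem (x j) := by
    refine ⟨q.map (eval z), hq.map _, ?_⟩
    rw [Polynomial.eval₂_map]
    exact h1
  have h5 : IsIntegral O (x j) := h4
  obtain ⟨a, ha⟩ := IsIntegrallyClosed.isIntegral_iff.1 h5
  rw [← ha]
  exact a.2

/-- `prime_sheets` from B and C -/
theorem sheets_of (O : ValuationSubring K)
    (hB : ∃ (k : ℕ) (ℓ : Fin k → σ → O),
      (∀ G : MvPolynomial (Fin k) K, aeval (fun i => lin fun j => (ℓ i j : K)) G ∈ 𝔭 → G = 0) ∧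
      ∀ j, ∃ q : Polynomial (MvPolynomial (Fin k) O), q.Monic ∧
        q.eval₂ (eval₂Hom (C.comp O.subtype) fun i => lin fun j => (ℓ i j : K)) (X j) ∈ 𝔭)
    (hC : ∀ (k : ℕ) (y : Fin k → MvPolynomial σ K ⧸ 𝔭),
      Function.Injective (aeval y : MvPolynomial (Fin k) K →ₐ[K] MvPolynomial σ K ⧸ 𝔭) →
      (∀ j, (aeval y : MvPolynomial (Fin k) K →ₐ[K] MvPolynomial σ K ⧸ 𝔭).toRingHom.IsIntegralElem
        (xq 𝔭 j)) →
      ∃ (D : ℕ) (Φ : MvPolynomial (Ix k σ) K),
        (∀ w : Fin k → K, ∃ ψ : Fin D → MvPolynomial σ K ⧸ 𝔭 →ₐ[K] K, (∀ m i, ψ m (y i) = w i) ∧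
          ∀ u T, eval (pt w u T) Φ = ∏ m, (T - ∑ j, u j * ψ m (xq 𝔭 j))) ∧
        ∀ ψ₀ : MvPolynomial σ K ⧸ 𝔭 →ₐ[K] K, ∃ ψ : Fin D → MvPolynomial σ K ⧸ 𝔭 →ₐ[K] K,
          (∀ m i, ψ m (y i) = ψ₀ (y i)) ∧ (∃ m, ψ m = ψ₀) ∧
          ∀ u T, eval (pt (fun i => ψ₀ (y i)) u T) Φ = ∏ m, (T - ∑ j, u j * ψ m (xq 𝔭 j))) :
    ∃ (k D : ℕ) (ℓ : Fin k → σ → K) (Φ : MvPolynomial (Ix k σ) K),
      (∀ i j, ℓ i j ∈ O) ∧
      (∀ w, ∃ X : Fin D → σ → K, IsTup (zeros (𝔭 : Set (MvPolynomial σ K))) ℓ Φ w X) ∧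
      (∀ x ∈ zeros (𝔭 : Set (MvPolynomial σ K)), ∃ X : Fin D → σ → K,
        IsTup (zeros (𝔭 : Set (MvPolynomial σ K))) ℓ Φ (fun i => ∑ j, ℓ i j * x j) X ∧
          ∃ m, X m = x) ∧
      ∀ x ∈ zeros (𝔭 : Set (MvPolynomial σ K)), (∀ i, ∑ j, ℓ i j * x j ∈ O) → ∀ j, x j ∈ O := by
  obtain ⟨k, ℓ, hinj, hint⟩ := hB
  have hinj' : Function.Injective
      (aeval (yq 𝔭 fun i j => (ℓ i j : K)) : MvPolynomial (Fin k) K →ₐ[K] _) := by
    rw [injective_iff_map_eq_zero]
    intro G hG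
    rw [aeval_yq] at hG
    exact hinj G (Ideal.Quotient.eq_zero_iff_mem.1 hG)
  obtain ⟨D, Φ, h1, h2⟩ := hC k (yq 𝔭 fun i j => (ℓ i j : K)) hinj' fun j => by
    obtain ⟨q, hq, hqp⟩ := hint j
    exact integral_xq O ℓ hq hqp
  refine ⟨k, D, fun i j => (ℓ i j : K), Φ, fun i j => (ℓ i j).2, fun w => ?_, fun x hx => ?_,
    fun x hx hO j => ?_⟩
  · obtain ⟨ψ, hψ, hΦ⟩ := h1 w
    exact ⟨fun m j => ψ m (xq 𝔭 j), ⟨fun m => mem_zeros _, fun m i => by
      rw [← hψ m i, apply_yq], fun u T => hΦ u T⟩⟩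
  · obtain ⟨ψ, hψ, ⟨m₀, hm₀⟩, hΦ⟩ := h2 (psi hx)
    refine ⟨fun m j => ψ m (xq 𝔭 j), ⟨fun m => mem_zeros _, fun m i => ?_, fun u T => ?_⟩,
      m₀, ?_⟩
    · exact (apply_yq (ψ m) _ i).symm.trans ((hψ m i).trans (psi_yq hx _ i))
    · rw [← hΦ u T]
      simp only [psi_yq]
    · funext j
      change ψ m₀ (xq 𝔭 j) = x j
      rw [hm₀, psi_xq]
  · obtain ⟨q, hq, hqp⟩ := hint j
    exact mem_of_forms O ℓ hq hqp hx hO

end PrimeD

end Pool.Agent.KRFW

end

section

/-!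
# Preparations for the ultraproduct (helper39)
-/

open MvPolynomial Filter Topology
open Pool.Agent.KRFN Pool.Agent.KRFN.Ultra Pool.Agent.KRFN.Loj

namespace Pool.Agent.KRFW

/-! ### Two tuples with the same polynomial -/

/-- a linear form which is not zero at finitely many nonzero vectors -/
theorem exists_form_ne {K : Type*} [Field K] [Infinite K] {σ : Type} [Fintype σ] {ι : Type*}
    (s : Finset ι) (v : ι → σ → K) (hv : ∀ i ∈ s, v i ≠ 0) :
    ∃ u : σ → K, ∀ i ∈ s, ∑ j, u j * v i j ≠ 0 := by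
  classical
  set P : MvPolynomial σ K := ∏ i ∈ s, lin (v i) with hP
  have hne : P ≠ 0 := by
    rw [hP, Finset.prod_ne_zero_iff]
    intro i hi h0
    apply hv i hi
    funext j
    have h1 := congrArg (eval (Pi.single j (1 : K))) h0
    rw [lin, map_sum, map_zero] at h1
    simp only [map_mul, eval_C, eval_X, Pi.single_apply, mul_ite, mul_one, mul_zero,
      Finset.sum_ite_eq', Finset.mem_univ, if_true] at h1
    exact h1
  by_contra hcon
  push Not at hcon
  apply hne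
  refine MvPolynomial.funext fun u => ?_
  obtain ⟨i, hi, h0⟩ := hcon u
  rw [map_zero, hP, map_prod]
  refine Finset.prod_eq_zero hi ?_
  rw [lin, map_sum, ← h0]
  refine Finset.sum_congr rfl fun j _ => ?_
  rw [map_mul, eval_C, eval_X, mul_comm]

/-- two tuples with the same polynomial have the same points -/
theorem tup_unique {K : Type*} [Field K] [Infinite K] {D : ℕ} {σ : Type} [Fintype σ]
    {X X' : Fin D → σ → K}
    (h : ∀ (u : σ → K) (T : K), ∏ m, (T - ∑ j, u j * X m j) = ∏ m, (T - ∑ j, u j * X' m j))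
    (m : Fin D) :
    ∃ m', X m = X' m' := by
  classical
  by_contra hcon
  push Not at hcon
  obtain ⟨u, hu⟩ := exists_form_ne (Finset.univ : Finset (Fin D)) (fun m' => X m - X' m')
    (fun m' _ => sub_ne_zero.2 (hcon m'))
  have h1 := h u (∑ j, u j * X m j)
  rw [Finset.prod_eq_zero (Finset.mem_univ m) (sub_self _)] at h1
  obtain ⟨m', -, h2⟩ := Finset.prod_eq_zero_iff.1 h1.symm
  apply hu m' (Finset.mem_univ _)
  rw [← h2, ← Finset.sum_sub_distrib]
  exact Finset.sum_congr rfl fun j _ => by rw [Pi.sub_apply, mul_sub]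

/-! ### Specialization of the variables `y` -/

section

variable {K : Type*} [Field K] {σ τ : Type}

/-- the polynomial `P (x, y)` in the variables `x` -/
noncomputable def spec (φ : ℂ →+* K) (y : τ → K) (P : MvPolynomial (σ ⊕ τ) ℂ) : MvPolynomial σ K :=
  P.eval₂ (C.comp φ) (Sum.elim X fun t => C (y t))

theorem eval_spec (φ : ℂ →+* K) (y : τ → K) (P : MvPolynomial (σ ⊕ τ) ℂ) (x : σ → K) :
    eval x (spec φ y P) = P.eval₂ φ (Sum.elim x y) := by
  rw [spec, MvPolynomial.hom_eval₂ P (C.comp φ) (eval x) (Sum.elim X fun t => C (y t))]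
  have h1 : (eval x).comp ((C : K →+* MvPolynomial σ K).comp φ) = φ := by
    ext c
    simp
  have h2 : (fun i => eval x ((Sum.elim X (fun t => C (y t)) : σ ⊕ τ → MvPolynomial σ K) i)) =
      Sum.elim x y := by
    funext i
    rcases i with i | i <;> simp
  rw [h1, h2]

variable [Fintype σ] [Fintype τ]

/-- the degree in `x` of the monomials -/
theorem degree_of_homogeneous {P : MvPolynomial (σ ⊕ τ) ℂ} {d : ℕ}
    (hP : ∀ (c : ℂ) (x : σ → ℂ) (y : τ → ℂ),
      eval (Sum.elim (c • x) y) P = c ^ d * eval (Sum.elim x y) P) {m : σ ⊕ τ →₀ ℕ}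
    (hm : coeff m P ≠ 0) : ∑ i : σ, m (Sum.inl i) = d := by
  classical
  -- the polynomial `P (2 x, y)`
  set Q : MvPolynomial (σ ⊕ τ) ℂ :=
    ∑ m ∈ P.support, monomial m (coeff m P * 2 ^ (∑ i : σ, m (Sum.inl i))) with hQ
  have h1 : Q = C ((2 : ℂ) ^ d) * P := by
    refine MvPolynomial.funext fun z => ?_
    have hz : z = Sum.elim (fun i => z (Sum.inl i)) (fun t => z (Sum.inr t)) := by
      funext i
      rcases i with i | i <;> rfl
    have h2 := hP 2 (fun i => z (Sum.inl i)) (fun t => z (Sum.inr t))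
    rw [← hz] at h2
    rw [map_mul, eval_C, ← h2, hQ, map_sum, eval_eq']
    refine Finset.sum_congr rfl fun m _ => ?_
    rw [eval_monomial, Finsupp.prod_fintype _ _ (fun i => pow_zero _), Fintype.prod_sum_type,
      Fintype.prod_sum_type]
    simp only [Sum.elim_inl, Sum.elim_inr, Pi.smul_apply, smul_eq_mul, mul_pow]
    rw [Finset.prod_mul_distrib, Finset.prod_pow_eq_pow_sum]
    ring
  have h3 := congrArg (coeff m) h1
  rw [coeff_C_mul, hQ, coeff_sum] at h3
  simp only [coeff_monomial] at h3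
  rw [Finset.sum_ite_eq' P.support m, if_pos (mem_support_iff.2 hm), mul_comm] at h3
  have h4 := mul_right_cancel₀ hm h3
  have h5 : (2 : ℕ) ^ (∑ i : σ, m (Sum.inl i)) = 2 ^ d := by exact_mod_cast h4
  exact Nat.pow_right_injective le_rfl h5

/-- the specialization is homogeneous -/
theorem isHomogeneous_spec (φ : ℂ →+* K) (y : τ → K) {P : MvPolynomial (σ ⊕ τ) ℂ} {d : ℕ}
    (hP : ∀ (c : ℂ) (x : σ → ℂ) (y : τ → ℂ),
      eval (Sum.elim (c • x) y) P = c ^ d * eval (Sum.elim x y) P) :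
    (spec φ y P).IsHomogeneous d := by
  classical
  rw [spec, eval₂_eq']
  refine IsHomogeneous.sum _ _ _ fun m hm => ?_
  rw [Fintype.prod_sum_type]
  simp only [Sum.elim_inl, Sum.elim_inr, RingHom.comp_apply]
  have h1 := degree_of_homogeneous hP (mem_support_iff.1 hm)
  have h2 : (∏ i : σ, (X i : MvPolynomial σ K) ^ m (Sum.inl i)).IsHomogeneous d := by
    rw [← h1]
    refine IsHomogeneous.prod _ _ _ fun i _ => ?_
    simpa using (isHomogeneous_X K i).pow (m (Sum.inl i))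
  have h3 : (∏ t : τ, (C (y t) : MvPolynomial σ K) ^ m (Sum.inr t)).IsHomogeneous 0 := by
    have h4 : (∏ t : τ, (C (y t) : MvPolynomial σ K) ^ m (Sum.inr t)) =
        C (∏ t : τ, y t ^ m (Sum.inr t)) := by
      rw [map_prod]
      exact Finset.prod_congr rfl fun t _ => (map_pow _ _ _).symm
    rw [h4]
    exact isHomogeneous_C σ _
  simpa using (isHomogeneous_C σ (φ (coeff m P))).mul (h2.mul h3)

end

/-! ### The finite elements -/

instance : CharZero KK := by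
  refine charZero_of_inj_zero fun n hn => ?_
  have h1 : cr (fun _ => (n : ℂ)) = 0 := by
    have h2 : (cr fun _ => (n : ℂ)) = (n : KK) := by
      have h3 : (fun _ : ℕ => (n : ℂ)) = ((n : ℕ) : ℕ → ℂ) := rfl
      rw [h3, map_natCast]
    rw [h2]
    exact hn
  obtain ⟨j, hj⟩ := exists_of_eventually (cr_eq_zero.1 h1)
  exact_mod_cast hj

/-- the valuation ring of the finite elements -/
noncomputable def FO : ValuationSubring KK where
  carrier := {a | ∃ f : ℕ → ℂ, cr f = a ∧ ∃ C : ℝ, ∀ᶠ j in (hyperfilter ℕ : Filter ℕ), ‖f j‖ ≤ C}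
  mul_mem' := by
    rintro _ _ ⟨f, rfl, C, hf⟩ ⟨g, rfl, C', hg⟩
    refine ⟨f * g, map_mul _ _ _, C * C', ?_⟩
    filter_upwards [hf, hg] with j h1 h2
    rw [Pi.mul_apply, norm_mul]
    exact mul_le_mul h1 h2 (norm_nonneg _) ((norm_nonneg _).trans h1)
  one_mem' := ⟨1, map_one _, 1, Eventually.of_forall fun j => by rw [Pi.one_apply, norm_one]⟩
  add_mem' := by
    rintro _ _ ⟨f, rfl, C, hf⟩ ⟨g, rfl, C', hg⟩
    refine ⟨f + g, map_add _ _ _, C + C', ?_⟩
    filter_upwards [hf, hg] with j h1 h2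
    rw [Pi.add_apply]
    exact (norm_add_le _ _).trans (add_le_add h1 h2)
  zero_mem' := ⟨0, map_zero _, 0, Eventually.of_forall fun j => by rw [Pi.zero_apply, norm_zero]⟩
  neg_mem' := by
    rintro _ ⟨f, rfl, C, hf⟩
    refine ⟨-f, map_neg _ _, C, ?_⟩
    filter_upwards [hf] with j h1
    rwa [Pi.neg_apply, norm_neg]
  mem_or_inv_mem' := by
    intro a
    obtain ⟨f, rfl⟩ := cr_surj a
    by_cases h : ∀ᶠ j in (hyperfilter ℕ : Filter ℕ), ‖f j‖ ≤ 1
    · exact Or.inl ⟨f, rfl, 1, h⟩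
    · refine Or.inr ⟨fun j => (f j)⁻¹, rfl, 1, ?_⟩
      filter_upwards [not_eventually h] with j h1
      rw [norm_inv]
      exact inv_le_one_of_one_le₀ (not_le.1 h1).le

theorem mem_FO {f : ℕ → ℂ} :
    cr f ∈ FO ↔ ∃ C : ℝ, ∀ᶠ j in (hyperfilter ℕ : Filter ℕ), ‖f j‖ ≤ C := by
  constructor
  · rintro ⟨g, hg, C, h⟩
    refine ⟨C, ?_⟩
    filter_upwards [cr_eq.1 hg, h] with j h1 h2
    rwa [← h1]
  · rintro ⟨C, h⟩
    exact ⟨f, rfl, C, h⟩

theorem cc_mem_FO (c : ℂ) : cc c ∈ FO := mem_FO.2 ⟨‖c‖, Eventually.of_forall fun _ => le_rfl⟩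

/-- finitely many finite elements have a common bound -/
theorem exists_bound_FO {ι : Type*} [Finite ι] {F : ι → ℕ → ℂ} (h : ∀ i, cr (F i) ∈ FO) :
    ∃ C : ℕ, ∀ᶠ j in (hyperfilter ℕ : Filter ℕ), ∀ i, ‖F i j‖ ≤ C := by
  have := Fintype.ofFinite ι
  choose C hC using fun i => mem_FO.1 (h i)
  obtain ⟨B, hB⟩ : ∃ B : ℕ, ∀ i, C i ≤ B := by
    rcases isEmpty_or_nonempty ι with hι | hι
    · exact ⟨0, fun i => (hι.false i).elim⟩
    · obtain ⟨i₀, hi₀⟩ := Finite.exists_max C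
      obtain ⟨B, hB⟩ := exists_nat_ge (C i₀)
      exact ⟨B, fun i => (hi₀ i).trans hB⟩
  refine ⟨B, ?_⟩
  have h3 : ∀ᶠ j in (hyperfilter ℕ : Filter ℕ), ∀ i, ‖F i j‖ ≤ C i := eventually_all.2 hC
  filter_upwards [h3] with j hj i
  exact (hj i).trans (hB i)

/-- the nonzero constants are units of the ring of the finite elements -/
theorem residue_injective : Function.Injective
    ((IsLocalRing.residue FO).comp (cc.codRestrict FO cc_mem_FO)) :=
  RingHom.injective _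

instance : Infinite (IsLocalRing.ResidueField FO) :=
  Infinite.of_injective _ residue_injective

end Pool.Agent.KRFW

end

section

/-!
# Transfer of tuples from the ultrapower to `ℂ`
-/

open MvPolynomial Filter Topology
open Pool.Agent.KRFN Pool.Agent.KRFN.Ultra Pool.Agent.KRFN.Loj

namespace Pool.Agent.KRFW

theorem cr_finsetSum {ι : Type*} (s : Finset ι) (f : ι → ℕ → ℂ) :
    cr (fun n => ∑ i ∈ s, f i n) = ∑ i ∈ s, cr (f i) := by
  have h : (fun n => ∑ i ∈ s, f i n) = ∑ i ∈ s, f i := by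
    funext n
    rw [Finset.sum_apply]
  rw [h, map_sum]

theorem cr_finsetProd {ι : Type*} (s : Finset ι) (f : ι → ℕ → ℂ) :
    cr (fun n => ∏ i ∈ s, f i n) = ∏ i ∈ s, cr (f i) := by
  have h : (fun n => ∏ i ∈ s, f i n) = ∏ i ∈ s, f i := by
    funext n
    rw [Finset.prod_apply]
  rw [h, map_prod]

theorem cr_mul (f g : ℕ → ℂ) : cr (fun n => f n * g n) = cr f * cr g := map_mul cr f g

theorem cr_sub (f g : ℕ → ℂ) : cr (fun n => f n - g n) = cr f - cr g := map_sub cr f g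

theorem cr_pow (f : ℕ → ℂ) (k : ℕ) : cr (fun n => f n ^ k) = cr f ^ k := map_pow cr f k

/-- a sequence of polynomials which represents `Φ` -/
theorem lift_poly {ι : Type} (Φ : MvPolynomial ι KK) : ∃ F : ℕ → MvPolynomial ι ℂ,
    ∀ z : ℕ → ι → ℂ, eval (fun i => cr fun n => z n i) Φ = cr fun n => eval (z n) (F n) := by
  choose c hc using fun m => cr_surj (coeff m Φ)
  refine ⟨fun n => ∑ m ∈ Φ.support, monomial m (c m n), fun z => ?_⟩
  rw [eval_eq]
  simp only [map_sum, eval_monomial]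
  rw [cr_finsetSum]
  refine Finset.sum_congr rfl fun m _ => ?_
  rw [cr_mul, hc]
  congr 1
  unfold Finsupp.prod
  rw [cr_finsetProd]
  exact Finset.prod_congr rfl fun i _ => (cr_pow _ _).symm

section

variable {k D : ℕ} {σ τ : Type} [Fintype σ]

omit [Fintype σ] in
theorem pt_cr (w : ℕ → Fin k → ℂ) (u : ℕ → σ → ℂ) (T : ℕ → ℂ) :
    (fun i => cr (fun n => pt (w n) (u n) (T n) i)) =
      pt (fun a => cr fun n => w n a) (fun j => cr fun n => u n j) (cr T) := by
  funext i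
  rcases i with i | i | i <;> rfl

theorem tup_transfer (S : Finset (MvPolynomial (σ ⊕ τ) ℂ)) (y : ℕ → τ → ℂ)
    (ℓ : ℕ → Fin k → σ → ℂ) {Φ : MvPolynomial (Ix k σ) KK} {F : ℕ → MvPolynomial (Ix k σ) ℂ}
    (hF : ∀ z : ℕ → Ix k σ → ℂ, eval (fun i => cr fun n => z n i) Φ = cr fun n => eval (z n) (F n))
    (w : ℕ → Fin k → ℂ) (X : ℕ → Fin D → σ → ℂ)
    (h : IsTup (zeros (spec cc (fun t => cr fun n => y n t) '' (S : Set _)))
      (fun a j => cr fun n => ℓ n a j) Φ (fun a => cr fun n => w n a)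
      (fun m j => cr fun n => X n m j)) :
    ∀ᶠ n in (hyperfilter ℕ : Filter ℕ),
      IsTup {x | Gam S x (y n)} (ℓ n) (F n) (w n) (X n) := by
  have h1 : ∀ᶠ n in (hyperfilter ℕ : Filter ℕ), ∀ m, ∀ P ∈ S,
      eval (Sum.elim (X n m) (y n)) P = 0 := by
    rw [eventually_all]
    intro m
    rw [eventually_all_finset]
    intro P hP
    have h2 := h.mem m _ ⟨P, hP, rfl⟩
    rw [eval_spec] at h2
    have h3 : (Sum.elim (fun j => cr fun n => X n m j) fun t => cr fun n => y n t :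
        σ ⊕ τ → KK) = fun i => cr (fun n => Sum.elim (X n m) (y n) i) := by
      funext i
      rcases i with i | i <;> rfl
    rw [h3, cr_eval P (fun i n => Sum.elim (X n m) (y n) i), cr_eq_zero] at h2
    exact h2
  have h4 : ∀ᶠ n in (hyperfilter ℕ : Filter ℕ), ∀ m i, ∑ j, ℓ n i j * X n m j = w n i := by
    rw [eventually_all]
    intro m
    rw [eventually_all]
    intro i
    have h2 := h.proj m i
    rw [← cr_eq, cr_finsetSum, ← h2]
    exact Finset.sum_congr rfl fun j _ => cr_mul _ _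
  have h5 : ∀ᶠ n in (hyperfilter ℕ : Filter ℕ), ∀ u T,
      eval (pt (w n) u T) (F n) = ∏ m, (T - ∑ j, u j * X n m j) := by
    by_contra hcon
    have h6 := not_eventually hcon
    have h7 : ∀ n, ∃ u T, (¬ ∀ u T, eval (pt (w n) u T) (F n) = ∏ m, (T - ∑ j, u j * X n m j)) →
        eval (pt (w n) u T) (F n) ≠ ∏ m, (T - ∑ j, u j * X n m j) := by
      intro n
      by_cases h8 : ∀ u T, eval (pt (w n) u T) (F n) = ∏ m, (T - ∑ j, u j * X n m j)
      · exact ⟨0, 0, fun h9 => absurd h8 h9⟩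
      · push Not at h8
        obtain ⟨u, T, h9⟩ := h8
        exact ⟨u, T, fun _ => h9⟩
    choose u T hu using h7
    have h10 := h.prod (fun j => cr fun n => u n j) (cr T)
    rw [← pt_cr, hF] at h10
    have h11 : ∏ m, (cr T - ∑ j, (cr fun n => u n j) * cr fun n => X n m j) =
        cr (fun n => ∏ m, (T n - ∑ j, u n j * X n m j)) := by
      rw [cr_finsetProd]
      refine Finset.prod_congr rfl fun m _ => ?_
      rw [cr_sub, cr_finsetSum]
      congr 1
    rw [h11, cr_eq] at h10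
    obtain ⟨n, h12, h13⟩ := exists_of_eventually (h10.and h6)
    exact hu n h13 h12
  filter_upwards [h1, h4, h5] with n a b c
  exact ⟨fun m P hP => a m P hP, b, c⟩

/-- the size of the points of a tuple -/
theorem bound_transfer (w : ℕ → Fin k → ℂ) (X : ℕ → Fin D → σ → ℂ)
    (h : ∀ c : KK, c ≠ 0 → (∀ a, (cr fun n => w n a) / c ∈ FO) →
      ∀ m j, (cr fun n => X n m j) / c ∈ FO) :
    ∃ C : ℕ, ∀ᶠ n in (hyperfilter ℕ : Filter ℕ), ∀ m, ‖X n m‖ ≤ C * ‖w n‖ := by
  by_cases hw : ∀ᶠ n in (hyperfilter ℕ : Filter ℕ), w n = 0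
  · refine ⟨0, ?_⟩
    have hw0 : ∀ a, (cr fun n => w n a) = 0 := by
      intro a
      rw [cr_eq_zero]
      filter_upwards [hw] with n hn
      rw [hn]
      rfl
    have hX : ∀ᶠ n in (hyperfilter ℕ : Filter ℕ), ∀ m j, X n m j = 0 := by
      rw [eventually_all]
      intro m
      rw [eventually_all]
      intro j
      rw [← cr_eq_zero]
      by_contra hne
      set ε : KK := cr fun n => ((n : ℂ) + 1)⁻¹ with hε
      have hε0 : ε ≠ 0 := by
        intro h0
        obtain ⟨n, hn⟩ := exists_of_eventually (cr_eq_zero.1 h0)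
        have h1 : (n : ℂ) + 1 ≠ 0 := by exact_mod_cast Nat.succ_ne_zero n
        exact inv_ne_zero h1 hn
      have h1 := h ((cr fun n => X n m j) * ε) (mul_ne_zero hne hε0) (fun a => by
        rw [hw0, zero_div]
        exact FO.zero_mem) m j
      rw [div_mul_cancel_left₀ hne, hε, cr_inv, mem_FO] at h1
      obtain ⟨C, hC⟩ := h1
      obtain ⟨n, hn1, hn2⟩ := exists_of_eventually (hC.and
        (eventually_of_atTop (eventually_ge_atTop (⌈C⌉₊))))
      rw [inv_inv] at hn1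
      have h2 : ‖(n : ℂ) + 1‖ = (n : ℝ) + 1 := by
        have h3 : ((n : ℂ) + 1) = ((n + 1 : ℕ) : ℂ) := by push_cast; ring
        rw [h3, Complex.norm_natCast]
        push_cast
        ring
      rw [h2] at hn1
      have h4 : C ≤ n := (Nat.le_ceil C).trans (by exact_mod_cast hn2)
      linarith
    filter_upwards [hX] with n hn m
    have h1 : X n m = 0 := funext fun j => hn m j
    rw [h1, norm_zero]
    simp
  · have hw' := not_eventually hw
    set c : KK := cr fun n => ((‖w n‖ : ℝ) : ℂ) with hc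
    have hc0 : c ≠ 0 := by
      intro h0
      obtain ⟨n, hn1, hn2⟩ := exists_of_eventually ((cr_eq_zero.1 h0).and hw')
      apply hn2
      rw [← norm_eq_zero]
      exact_mod_cast hn1
    have hdiv : ∀ f : ℕ → ℂ, (cr f) / c = cr fun n => f n / ((‖w n‖ : ℝ) : ℂ) := fun f => rfl
    have h1 := h c hc0 (fun a => by
      rw [hdiv, mem_FO]
      refine ⟨1, Eventually.of_forall fun n => ?_⟩
      rw [norm_div, Complex.norm_real, Real.norm_of_nonneg (norm_nonneg _)]
      exact div_le_one_of_le₀ (norm_le_pi_norm (w n) a) (norm_nonneg _))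
    obtain ⟨C, hC⟩ := exists_bound_FO (ι := Fin D × σ)
      (F := fun i n => X n i.1 i.2 / ((‖w n‖ : ℝ) : ℂ)) fun i => h1 i.1 i.2
    refine ⟨C, ?_⟩
    filter_upwards [hC, hw'] with n hn hn' m
    refine (pi_norm_le_iff_of_nonneg (by positivity)).2 fun j => ?_
    have h2 := hn (m, j)
    rw [norm_div, Complex.norm_real, Real.norm_of_nonneg (norm_nonneg _),
      div_le_iff₀ (norm_pos_iff.2 hn')] at h2
    exact h2

end

end Pool.Agent.KRFW

end
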